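import Pool.Agent.Zk2.DH.MP3
import Pool.Agent.Zk41.DH.PP2

set_option autoImplicit false

/-!
The measure of the heights near which the logarithmic derivative of the Euler product is large: `S_MP`.
-/

namespace Pool.Agent.Zk2.DH

open Complex Filter Topology MeasureTheory Set
open Pool.Agent.Zk1.DH

theorem ppw : PPW := by
  intro a0 ha0
  obtain ⟨T0, hT0, h⟩ := Pool.Agent.Zk41.DH.ppow a0 ha0
  refine ⟨0, T0, le_rfl, hT0, fun T z hT hz => ?_⟩
  have h1 := h T z hT hz.le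
  have e : SS 0 (T ^ a0) (1 / 2 + z) = ∑ p ∈ Pool.Agent.Zk41.DH.prs ⌊T ^ a0⌋₊,
      (Real.log p : ℂ) * (p : ℂ) ^ (-(1 / 2 + z)) := by
    unfold SS
    refine Finset.sum_congr ?_ (fun _ _ => rfl)
    ext p
    rw [Pool.Agent.Zk41.DH.prs_eq]
    simp only [Finset.mem_filter, Finset.mem_Icc]
    constructor
    · rintro ⟨h1, h2, -⟩
      exact ⟨h1, h2⟩
    · rintro ⟨h1, h2⟩
      exact ⟨h1, h2, by exact_mod_cast h2.pos⟩
  rw [e]
  linarith

theorem smp : S_MP := sMP Pool.Agent.Zk41.DH.mp0 ppw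

end Pool.Agent.Zk2.DH
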