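import Pool.Agent.Zk2.DH.ZP0

set_option autoImplicit false

/-!
# `S_ZP`
-/

namespace Pool.Agent.Zk2.DH

open Complex Filter Topology MeasureTheory Set
open Pool.Agent.Zk1.DH

lemma L_pos {T : ℝ} (hT : 16 ≤ T) : 1 ≤ Real.log T := by
  rw [Real.le_log_iff_exp_le (by linarith)]
  have := Real.exp_one_lt_d9
  linarith

/-- the pole of zeta is not in the cone -/
lemma pole {e T Y t x0 : ℝ} (he : 0 < e) (he1 : e ≤ 1 / 100) (hT : 16 ≤ T) (_hY : 1 ≤ Y) (ht1 : T / 2 ≤ t)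
    (hx0 : 0 < x0) (hx04 : x0 ≤ 1 / 4) (hYx : Y * x0 ≤ 1) (z : ℂ) (_hz : x0 ≤ z.re)
    (hz2 : |z.im - t| ≤ wid T x0 (Y + 3) (2 * e) z.re) : 1 / 2 + z ≠ 1 := by
  intro h
  have hL := L_pos hT
  have h1 : z = 1 / 2 := by linear_combination h
  have h2 : z.re = 1 / 2 := by rw [h1]; norm_num
  have h3 : z.im = 0 := by rw [h1]; norm_num
  rw [h2, h3] at hz2
  unfold wid at hz2
  have h4 : |0 - t| = t := by rw [zero_sub, abs_neg, abs_of_nonneg (by linarith)]
  rw [h4] at hz2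
  have h5 : Real.exp (2 * e * (1 / 2 - x0) * Real.log T) ≤ Real.exp (Real.log T / 2) := by
    apply Real.exp_le_exp.mpr
    have h6 : 2 * e * (1 / 2 - x0) ≤ 1 / 2 := by nlinarith
    nlinarith
  have h6 : Real.exp (Real.log T / 2) = Real.sqrt T := by
    rw [Real.sqrt_eq_rpow, Real.rpow_def_of_pos (by linarith)]
    congr 1
    ring
  rw [h6] at h5
  have h7 : (Y + 3) * x0 ≤ 7 / 4 := by nlinarith
  have h8 : (Y + 3) * x0 * Real.exp (2 * e * (1 / 2 - x0) * Real.log T) ≤ 7 / 4 * Real.sqrt T := by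
    apply mul_le_mul h7 h5 (Real.exp_pos _).le (by norm_num)
  have h9 : 4 ≤ Real.sqrt T := by
    apply Real.le_sqrt_of_sq_le
    linarith
  have h10 : Real.sqrt T * Real.sqrt T = T := Real.mul_self_sqrt (by linarith)
  nlinarith

lemma x1_le {e x0 x1 L : ℝ} (he : 0 < e) (hN : 1 / e ≤ x0 * L) (hx0 : 0 < x0) (hx : x0 ≤ x1) :
    x1 ≤ x0 * Real.exp (e * (x1 - x0) * L) := by
  have h1 := Real.add_one_le_exp (e * (x1 - x0) * L)
  have h2 : 1 ≤ e * (x0 * L) := by
    have := mul_le_mul_of_nonneg_left hN he.le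
    rwa [mul_one_div_cancel he.ne'] at this
  have h3 : x1 - x0 ≤ e * (x0 * L) * (x1 - x0) := by nlinarith
  have h4 := mul_le_mul_of_nonneg_left h1 hx0.le
  nlinarith

/-- the width of the sub-cones -/
lemma wid_le {e x0 x1 L T Y t y1 : ℝ} (hLT : L = Real.log T) (hL : 0 < L) (he : 0 < e)
    (hN : 1 / e ≤ x0 * L) (hx0 : 0 < x0) (hx : x0 ≤ x1) (hY : 1 ≤ Y)
    (hy : |y1 - t| ≤ (Y + 1) * x0 * Real.exp (e * (x1 - x0) * L)) (z : ℂ) (hz : x1 ≤ z.re)
    (hz2 : |z.im - y1| ≤ x1 * Real.exp (e * (z.re - x1) * L)) :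
    |z.im - t| ≤ wid T x0 (Y + 3) (2 * e) z.re := by
  have h1 := x1_le he hN hx0 hx
  have h2 : x1 * Real.exp (e * (z.re - x1) * L) ≤ x0 * Real.exp (e * (z.re - x0) * L) := by
    calc x1 * Real.exp (e * (z.re - x1) * L) ≤
        (x0 * Real.exp (e * (x1 - x0) * L)) * Real.exp (e * (z.re - x1) * L) := by gcongr
      _ = x0 * Real.exp (e * (z.re - x0) * L) := by
        rw [mul_assoc, ← Real.exp_add]
        congr 2
        ring
  have h3 : Real.exp (e * (x1 - x0) * L) ≤ Real.exp (e * (z.re - x0) * L) := by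
    apply Real.exp_le_exp.mpr
    have : e * (x1 - x0) ≤ e * (z.re - x0) := mul_le_mul_of_nonneg_left (by linarith) he.le
    exact mul_le_mul_of_nonneg_right this hL.le
  have h4 : Real.exp (e * (z.re - x0) * L) ≤ Real.exp (2 * e * (z.re - x0) * L) := by
    apply Real.exp_le_exp.mpr
    have : e * (z.re - x0) ≤ 2 * e * (z.re - x0) := by nlinarith
    exact mul_le_mul_of_nonneg_right this hL.le
  have h5 : |z.im - t| ≤ |z.im - y1| + |y1 - t| := by
    have := abs_add_le (z.im - y1) (y1 - t)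
    have e1 : z.im - y1 + (y1 - t) = z.im - t := by ring
    rwa [e1] at this
  unfold wid
  rw [← hLT]
  have hE : 0 < Real.exp (e * (z.re - x0) * L) := Real.exp_pos _
  calc |z.im - t| ≤ |z.im - y1| + |y1 - t| := h5
    _ ≤ x0 * Real.exp (e * (z.re - x0) * L) + (Y + 1) * x0 * Real.exp (e * (z.re - x0) * L) := by
        refine add_le_add (hz2.trans h2) (hy.trans ?_)
        exact mul_le_mul_of_nonneg_left h3 (by positivity)
    _ = (Y + 2) * x0 * Real.exp (e * (z.re - x0) * L) := by ring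
    _ ≤ (Y + 3) * x0 * Real.exp (2 * e * (z.re - x0) * L) := by
        have : (Y + 2) * x0 ≤ (Y + 3) * x0 := by nlinarith
        exact mul_le_mul this h4 hE.le (by positivity)

lemma pow_exp_le {c1 u : ℝ} (q1 : ℕ) (hc1 : 0 < c1) (hu : 0 ≤ u) :
    (1 + u) ^ q1 * Real.exp (-(c1 * u)) ≤ (1 + 2 * q1 / c1) ^ q1 * Real.exp (-(c1 / 2 * u)) := by
  rcases Nat.eq_zero_or_pos q1 with h0 | h0
  · subst h0
    simp
    nlinarith
  have hq : (0 : ℝ) < q1 := by exact_mod_cast h0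
  have h1 : 1 + u ≤ (1 + 2 * q1 / c1) * Real.exp (c1 * u / (2 * q1)) := by
    have h2 := Real.add_one_le_exp (c1 * u / (2 * q1))
    have h3 : 0 ≤ 2 * q1 / c1 := by positivity
    have h4 : u = 2 * q1 / c1 * (c1 * u / (2 * q1)) := by field_simp
    have h5 : 0 ≤ c1 * u / (2 * q1) := by positivity
    calc 1 + u = 1 + 2 * q1 / c1 * (c1 * u / (2 * q1)) := by rw [← h4]
      _ ≤ (1 + 2 * q1 / c1) * (c1 * u / (2 * q1) + 1) := by nlinarith
      _ ≤ _ := mul_le_mul_of_nonneg_left h2 (by positivity)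
  have h2 : (1 + u) ^ q1 ≤ (1 + 2 * q1 / c1) ^ q1 * Real.exp (c1 * u / 2) := by
    calc (1 + u) ^ q1 ≤ ((1 + 2 * q1 / c1) * Real.exp (c1 * u / (2 * q1))) ^ q1 := by
          apply pow_le_pow_left₀ (by positivity) h1
      _ = _ := by
          rw [mul_pow, ← Real.exp_nat_mul]
          congr 2
          field_simp
  calc (1 + u) ^ q1 * Real.exp (-(c1 * u)) ≤
      ((1 + 2 * q1 / c1) ^ q1 * Real.exp (c1 * u / 2)) * Real.exp (-(c1 * u)) := by gcongr
    _ = _ := by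
      rw [mul_assoc, ← Real.exp_add]
      congr 2
      ring

lemma step1 {C1 e c1 L T X Y t x0 : ℝ} {q1 : ℕ} (hC1 : 0 < C1) (he : 0 < e) (he1 : e ≤ 1 / 100)
    (hc1 : 0 < c1) (hq1 : c1 ≤ q1 * e) (hL : L = Real.log T) (hT : 16 ≤ T) (hX : 2 ≤ X)
    (hXT : X ^ (-(3 / 2 : ℝ)) = Real.exp (-(4 * c1 * L)))
    (hY : 1 ≤ Y) (ht1 : T / 2 ≤ t) (hx0 : 0 < x0) (hN : 1 / e ≤ x0 * L) (hx04 : x0 ≤ 1 / 4)
    (hYx : Y * x0 ≤ 1) (hZC : ZC T x0 (Y + 3) (2 * e) C1 t)
    (hPP : ∀ z : ℂ, x0 ≤ z.re → |z.im - t| ≤ wid T x0 (Y + 3) (2 * e) z.re →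
      ‖logDeriv (PP X) (1 / 2 + z)‖ ≤ C1 * Real.log T) (z1 : ℂ) (hz1 : x0 ≤ z1.re) (hz4 : z1.re ≤ 4)
    (hz2 : |z1.im - t| ≤ (Y + 1) * x0 * Real.exp (e * (z1.re - x0) * L)) :
    GG X z1 ≠ 0 ∧ |Real.log ‖GG X z1‖| ≤ (2 * C1 + 4) * (1 + 2 * q1 / c1) ^ q1 * (2 / c1) + 1 := by
  set x1 := z1.re with hx1
  set y1 := z1.im with hy1
  have hL1 : 1 ≤ L := by rw [hL]; exact L_pos hT
  have hLp : 0 < L := by linarith
  have hx1p : 0 < x1 := by linarith
  have hcone : ∀ z : ℂ, x1 ≤ z.re → |z.im - y1| ≤ x1 * Real.exp (e * (z.re - x1) * L) →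
      |z.im - t| ≤ wid T x0 (Y + 3) (2 * e) z.re := fun z h1 h2 =>
    wid_le hL hLp he hN hx0 hz1 hY hz2 z h1 h2
  set M1 : ℝ := 2 * C1 * L + 4 with hM1
  have hM1p : 0 ≤ M1 := by positivity
  have H1 : ∀ z : ℂ, x1 ≤ z.re → z.re ≤ 4 → |z.im - y1| ≤ x1 * Real.exp (e * (z.re - x1) * L) →
      DifferentiableAt ℂ (hh X) z ∧ ‖hh X z‖ ≤ M1 * Real.exp (0 * (z.re - x1) * L) := by
    intro z h1 h2 h3
    have h4 := hcone z h1 h3
    have h5 : x0 ≤ z.re := hz1.trans h1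
    have h6 := pole he he1 hT hY ht1 hx0 hx04 hYx z h5 h4
    refine ⟨hh_diff X (by linarith) h6 (hZC.ne z h5 h4), ?_⟩
    rw [zero_mul, zero_mul, Real.exp_zero, mul_one]
    unfold hh
    have h7 := hZC.ld z h5 h4
    have h8 := hPP z h5 h4
    rw [← hL] at h7 h8
    have h9 := norm_sub_le (logDeriv riemannZeta (1 / 2 + z)) (logDeriv (PP X) (1 / 2 + z))
    linarith
  have H2 : ∀ z : ℂ, z.re = 4 → ‖hh X z‖ ≤ M1 * Real.exp (-(c1 * (4 - x1) * L)) := by
    intro z h1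
    have h2 := hh_far X hX h1
    rw [hXT] at h2
    have h3 : Real.exp (-(4 * c1 * L)) ≤ Real.exp (-(c1 * (4 - x1) * L)) := by
      apply Real.exp_le_exp.mpr
      have : 0 ≤ c1 * x1 * L := by positivity
      nlinarith
    have h4 : 4 ≤ M1 := by have : 0 ≤ 2 * C1 * L := by positivity
                           linarith
    calc ‖hh X z‖ ≤ 4 * Real.exp (-(4 * c1 * L)) := h2
      _ ≤ M1 * Real.exp (-(c1 * (4 - x1) * L)) := by
        exact mul_le_mul h4 h3 (Real.exp_pos _).le hM1p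
  have hPL := sPL e c1 0 L x1 y1 4 M1 q1 (hh X) he hc1.le le_rfl hLp hx1p hz4 hM1p (by simpa using hq1)
    H1 H2
  -- the bound on the horizontal segment
  set C3 : ℝ := (1 + 2 * q1 / c1) ^ q1 with hC3
  have hC3p : 0 < C3 := by positivity
  set K1 : ℝ := (2 * C1 + 4) * C3 * (2 / c1) with hK1
  have hK1p : 0 ≤ K1 := by positivity
  have hinv : 1 / x1 ≤ L := by
    have h1 : 1 ≤ x0 * L := by
      have : (1 : ℝ) ≤ 1 / e := by rw [le_div_iff₀ he]; linarith
      linarith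
    rw [div_le_iff₀ hx1p]
    nlinarith
  have hb : ∀ x ∈ Icc x1 4, ‖hh X (x + y1 * I)‖ ≤ K1 * (c1 / 2 * L) * Real.exp (-((c1 / 2 * L) * (x - x1))) := by
    intro x hx
    have h1 := hPL x hx.1 hx.2
    have hu : 0 ≤ (x - x1) * L := mul_nonneg (by linarith [hx.1]) hLp.le
    have h2 : x / x1 ≤ 1 + (x - x1) * L := by
      have h3 : x / x1 = 1 + (x - x1) * (1 / x1) := by field_simp; ring
      rw [h3]
      have := mul_le_mul_of_nonneg_left hinv (sub_nonneg.mpr hx.1)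
      linarith
    have h3 : (x / x1) ^ q1 ≤ (1 + (x - x1) * L) ^ q1 :=
      pow_le_pow_left₀ (div_nonneg (hx1p.le.trans hx.1) hx1p.le) h2 q1
    have h4 := pow_exp_le q1 hc1 hu
    have h5 : M1 ≤ (2 * C1 + 4) * L := by nlinarith
    calc ‖hh X (x + y1 * I)‖ ≤ M1 * (x / x1) ^ q1 * Real.exp (-(c1 * (x - x1) * L)) := h1
      _ ≤ M1 * (1 + (x - x1) * L) ^ q1 * Real.exp (-(c1 * (x - x1) * L)) := by gcongr
      _ = M1 * ((1 + (x - x1) * L) ^ q1 * Real.exp (-(c1 * ((x - x1) * L)))) := by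
          rw [mul_assoc M1, mul_assoc c1]
      _ ≤ ((2 * C1 + 4) * L) * (C3 * Real.exp (-(c1 / 2 * ((x - x1) * L)))) := by
          apply mul_le_mul h5 h4 (by positivity) (by positivity)
      _ = _ := by
          rw [hK1]
          have : -(c1 / 2 * ((x - x1) * L)) = -((c1 / 2 * L) * (x - x1)) := by ring
          rw [this]
          field_simp
  have hmem : ∀ x ∈ Icc x1 4, (((x : ℂ) + y1 * I).re = x ∧ ((x : ℂ) + y1 * I).im = y1) := by
    intro x _
    constructor <;> simp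
  have hreg : ∀ x ∈ Icc x1 4, 0 < ((x : ℂ) + y1 * I).re ∧ 1 / 2 + ((x : ℂ) + y1 * I) ≠ 1 ∧
      riemannZeta (1 / 2 + ((x : ℂ) + y1 * I)) ≠ 0 := by
    intro x hx
    obtain ⟨h1, h2⟩ := hmem x hx
    have h3 : |((x : ℂ) + y1 * I).im - t| ≤ wid T x0 (Y + 3) (2 * e) ((x : ℂ) + y1 * I).re := by
      apply hcone
      · rw [h1]; exact hx.1
      · rw [h2, sub_self, abs_zero]; positivity
    have h4 : x0 ≤ ((x : ℂ) + y1 * I).re := by rw [h1]; exact hz1.trans hx.1
    exact ⟨by linarith, pole he he1 hT hY ht1 hx0 hx04 hYx _ h4 h3, hZC.ne _ h4 h3⟩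
  have hne : ∀ x ∈ Icc x1 4, GG X (x + y1 * I) ≠ 0 := by
    intro x hx
    obtain ⟨h1, -, h3⟩ := hreg x hx
    unfold GG
    exact div_ne_zero h3 (PP_ne X _ (by rw [half_re]; linarith))
  have hder : ∀ x ∈ Icc x1 4, HasDerivAt (fun x : ℝ => GG X (x + y1 * I))
      (GG X (x + y1 * I) * hh X (x + y1 * I)) x := by
    intro x hx
    obtain ⟨h1, h2, h3⟩ := hreg x hx
    have h4 := GG_deriv X h1 h2 h3
    have h5 : HasDerivAt (fun x : ℝ => (x : ℂ) + y1 * I) 1 x :=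
      (Complex.ofRealCLM.hasDerivAt (x := x)).add_const _
    have h6 := HasDerivAt.comp x h4 h5
    rw [mul_one] at h6
    exact h6
  have hlc := log_change (F := fun x : ℝ => GG X (x + y1 * I)) (F' := fun x : ℝ => hh X (x + y1 * I))
    (a := x1) (b := 4) (K := K1) (r := c1 / 2 * L) hz4 hK1p (by positivity) hder hne hb
  have hz : ((x1 : ℂ) + y1 * I) = z1 := by rw [hx1, hy1]; exact Complex.re_add_im z1
  have hfar := GG_far2 X hX (z := ((4 : ℝ) : ℂ) + y1 * I) (by simp)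
  have hlog4 : |Real.log ‖GG X (((4 : ℝ) : ℂ) + y1 * I)‖| ≤ 1 := by
    set g := GG X (((4 : ℝ) : ℂ) + y1 * I) with hg
    have h1 : 1 / 2 ≤ ‖g‖ := by
      have h6 := norm_sub_norm_le (1 : ℂ) (1 - g)
      have h7 : (1 : ℂ) - (1 - g) = g := by ring
      rw [h7, norm_one, norm_sub_rev] at h6
      linarith
    have h2 : ‖g‖ ≤ 3 / 2 := by
      have h6 := norm_add_le (g - 1) 1
      have h7 : g - 1 + 1 = g := by ring
      rw [h7, norm_one] at h6
      linarith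
    have h3 : Real.log ‖g‖ ≤ ‖g‖ - 1 := Real.log_le_sub_one_of_pos (by linarith)
    have h4 : 1 - ‖g‖⁻¹ ≤ Real.log ‖g‖ := Real.one_sub_inv_le_log_of_pos (by linarith)
    have h5 : ‖g‖⁻¹ ≤ 2 := by
      have := inv_anti₀ (by norm_num : (0 : ℝ) < 1 / 2) h1
      norm_num at this
      exact this
    rw [abs_le]
    constructor <;> linarith
  constructor
  · rw [← hz]
    exact hne x1 ⟨le_rfl, hz4⟩
  · rw [hz] at hlc
    rw [abs_le] at hlc hlog4 ⊢
    constructor <;> linarith [hlc.1, hlc.2, hlog4.1, hlog4.2]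

theorem sZP : S_ZP := by
  intro C1 e δ K0 hC1 he he1 hδ hδ1 hK0
  have hK0r : (3 : ℝ) ≤ K0 := by exact_mod_cast hK0
  have hK0p : (0 : ℝ) < K0 := by linarith
  set c1 : ℝ := 3 / (8 * K0) with hc1d
  have hc1 : 0 < c1 := by positivity
  set q1 : ℕ := ⌈c1 / e⌉₊ with hq1d
  have hq1 : c1 ≤ q1 * e := by
    have := Nat.le_ceil (c1 / e)
    rw [div_le_iff₀ he] at this
    exact this
  set C3 : ℝ := (1 + 2 * q1 / c1) ^ q1 with hC3
  have hC3p : 0 < C3 := by positivity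
  set C4 : ℝ := (2 * C1 + 4) * C3 * (2 / c1) + 1 with hC4
  have hC4p : 0 < C4 := by positivity
  set q2 : ℕ := ⌈1 / (2 * e)⌉₊ with hq2d
  have hq2 : 1 / 2 ≤ q2 * e := by
    have := Nat.le_ceil (1 / (2 * e))
    rw [div_le_iff₀ (by positivity)] at this
    linarith
  refine ⟨C4 + 2, 1 / e, max 16 (2 ^ K0), q2, by positivity, ?_, ?_, ?_⟩
  · rw [le_div_iff₀ he]; linarith
  · exact le_trans (by norm_num) (le_max_left _ _)
  intro Y T t x0 b hY hT ht1 ht2 hN hx04 hYx hb hZC hPP hDD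
  have hT16 : 16 ≤ T := (le_max_left _ _).trans hT
  have hT2 : 2 ^ K0 ≤ T := (le_max_right _ _).trans hT
  have hT0 : 0 < T := by linarith
  set L : ℝ := Real.log T with hLd
  have hL1 : 1 ≤ L := L_pos hT16
  have hLp : 0 < L := by linarith
  have hx0 : 0 < x0 := by
    have h1 : 0 < 1 / e := by positivity
    by_contra hc
    have : x0 * L ≤ 0 := mul_nonpos_of_nonpos_of_nonneg (not_lt.mp hc) hLp.le
    linarith
  set X : ℝ := T ^ (1 / K0 : ℝ) with hXd
  have hX2 : 2 ≤ X := by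
    have h1 : ((2 : ℝ) ^ K0) ^ (1 / K0 : ℝ) ≤ T ^ (1 / K0 : ℝ) :=
      Real.rpow_le_rpow (by positivity) hT2 (by positivity)
    rw [← Real.rpow_natCast, ← Real.rpow_mul (by norm_num), mul_one_div_cancel hK0p.ne',
      Real.rpow_one] at h1
    exact h1
  have hXT : X ^ (-(3 / 2 : ℝ)) = Real.exp (-(4 * c1 * L)) := by
    rw [hXd, ← Real.rpow_mul hT0.le, Real.rpow_def_of_pos hT0, ← hLd, hc1d]
    congr 1
    field_simp
    ring
  have hXT2 : X ≤ T ^ (1 / 2 : ℝ) := by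
    apply Real.rpow_le_rpow_of_exponent_le (by linarith)
    apply one_div_le_one_div_of_le (by norm_num)
    linarith
  have hS1 := step1 (c1 := c1) (X := X) (q1 := q1) hC1 he he1 hc1 hq1 hLd hT16 hX2 hXT hY ht1 hx0 hN hx04 hYx
    hZC hPP
  have hGb : ∀ z : ℂ, x0 ≤ z.re → z.re ≤ 4 → |z.im - t| ≤ (Y + 1) * x0 * Real.exp (e * (z.re - x0) * L) →
      Real.exp (-C4) ≤ ‖GG X z‖ ∧ ‖GG X z‖ ≤ Real.exp C4 := by
    intro z h1 h2 h3
    obtain ⟨g0, g1⟩ := hS1 z h1 h2 h3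
    have g2 : 0 < ‖GG X z‖ := norm_pos_iff.mpr g0
    rw [abs_le] at g1
    constructor
    · rw [← Real.exp_log g2]
      exact Real.exp_le_exp.mpr g1.1
    · rw [← Real.exp_log g2]
      exact Real.exp_le_exp.mpr g1.2
  intro z hz1 hz2 hz3
  have hzP : PP X (1 / 2 + z) ≠ 0 := PP_ne X _ (by rw [half_re]; linarith)
  have hzPn : 0 < ‖PP X (1 / 2 + z)‖ := norm_pos_iff.mpr hzP
  have hzG : riemannZeta (1 / 2 + z) = GG X z * PP X (1 / 2 + z) := by
    unfold GG
    rw [div_mul_cancel₀ _ hzP]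
  have hzc : |z.im - t| ≤ (Y + 1) * x0 * Real.exp (e * (z.re - x0) * L) := by
    have h1 : 1 ≤ Real.exp (e * (z.re - x0) * L) := by
      apply Real.one_le_exp
      have : 0 ≤ z.re - x0 := by linarith
      positivity
    have h2 : 0 < (Y + 1) * x0 := by positivity
    nlinarith
  obtain ⟨hG1, hG2⟩ := hGb z hz1 (by linarith) hzc
  refine ⟨?_, ?_, ?_⟩
  · rw [hzG, norm_mul]
    refine mul_le_mul_of_nonneg_right (le_trans ?_ hG1) hzPn.le
    apply Real.exp_le_exp.mpr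
    linarith
  · rw [hzG, norm_mul]
    refine mul_le_mul_of_nonneg_right (le_trans hG2 ?_) hzPn.le
    apply Real.exp_le_exp.mpr
    linarith
  -- the tail
  set h2 : ℂ → ℂ := fun w => GG X w - 1 - DD X X (T ^ (1 / 2 : ℝ)) (1 / 2 + w) with hh2
  set M : ℝ := (Real.exp C4 + 2) * Real.exp (b + δ * x0 * L) with hM
  have hMp : 0 < M := by positivity
  have hΛ : 4 ≤ 1 / δ := by rw [le_div_iff₀ hδ]; linarith
  have hLt : (1 / 2 - 2 * δ) + δ ≤ q2 * e := by linarith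
  have hy0 : |z.im - t| ≤ Y * x0 := hz3
  have H1 : ∀ w : ℂ, x0 ≤ w.re → w.re ≤ 1 / δ → |w.im - z.im| ≤ x0 * Real.exp (e * (w.re - x0) * L) →
      DifferentiableAt ℂ h2 w ∧ ‖h2 w‖ ≤ M * Real.exp (δ * (w.re - x0) * L) := by
    intro w a1 a2 a3
    have hE1 : 1 ≤ Real.exp (e * (w.re - x0) * L) := by
      apply Real.one_le_exp
      have : 0 ≤ w.re - x0 := by linarith
      positivity
    have a4 : |w.im - t| ≤ (Y + 1) * x0 * Real.exp (e * (w.re - x0) * L) := by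
      have h5 : |w.im - t| ≤ |w.im - z.im| + |z.im - t| := by
        have := abs_add_le (w.im - z.im) (z.im - t)
        have e1 : w.im - z.im + (z.im - t) = w.im - t := by ring
        rwa [e1] at this
      have h6 : 0 < Y * x0 := by positivity
      nlinarith
    have a5 : |w.im - t| ≤ wid T x0 (Y + 3) (2 * e) w.re := by
      apply wid_le hLd hLp he hN hx0 le_rfl hY (y1 := z.im) _ w a1 a3
      rw [sub_self, mul_zero, zero_mul, Real.exp_zero, mul_one]
      nlinarith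
    have a6 := pole he he1 hT16 hY ht1 hx0 hx04 hYx w a1 a5
    have a7 := hZC.ne w a1 a5
    have a8 : 0 < w.re := by linarith
    constructor
    · simp only [hh2]
      have d1 := (GG_deriv X a8 a6 a7).differentiableAt
      have d2 : DifferentiableAt ℂ (fun w : ℂ => DD X X (T ^ (1 / 2 : ℝ)) (1 / 2 + w)) w := by
        have e1 : DifferentiableAt ℂ (fun z : ℂ => 1 / 2 + z) w := by fun_prop
        exact (DD_diff X X (T ^ (1 / 2 : ℝ)) (1 / 2 + w)).comp w e1
      exact (d1.sub_const 1).sub d2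
    · have b1 : ‖GG X w‖ ≤ Real.exp C4 := by
        by_cases hw4 : w.re ≤ 4
        · exact (hGb w a1 hw4 a4).2
        · have h3 := GG_far2 X hX2 (z := w) (by linarith [not_le.mp hw4])
          have h6 := norm_add_le (GG X w - 1) 1
          have h7 : GG X w - 1 + 1 = GG X w := by ring
          rw [h7, norm_one] at h6
          have h8 := Real.add_one_le_exp C4
          have h9 : 1 ≤ C4 := by
            rw [hC4]
            have : 0 ≤ (2 * C1 + 4) * C3 * (2 / c1) := by positivity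
            linarith
          linarith
      have b2 := hDD w a1 a5
      have b3 : ‖h2 w‖ ≤ ‖GG X w‖ + 1 + ‖DD X X (T ^ (1 / 2 : ℝ)) (1 / 2 + w)‖ := by
        simp only [hh2]
        have c1 := norm_sub_le (GG X w - 1) (DD X X (T ^ (1 / 2 : ℝ)) (1 / 2 + w))
        have c2 := norm_sub_le (GG X w) 1
        rw [norm_one] at c2
        linarith
      have b4 : 1 ≤ Real.exp (b + δ * w.re * L) := by
        apply Real.one_le_exp
        positivity
      have b5 : M * Real.exp (δ * (w.re - x0) * L) = (Real.exp C4 + 2) * Real.exp (b + δ * w.re * L) := by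
        rw [hM, mul_assoc, ← Real.exp_add]
        congr 2
        ring
      rw [b5]
      have b6 : Real.exp C4 ≤ Real.exp C4 * Real.exp (b + δ * w.re * L) :=
        le_mul_of_one_le_right (Real.exp_pos _).le b4
      nlinarith
  have H2 : ∀ w : ℂ, w.re = 1 / δ → ‖h2 w‖ ≤ M * Real.exp (-((1 / 2 - 2 * δ) * (1 / δ - x0) * L)) := by
    intro w a1
    have a2 := rough_tail X (T ^ (1 / 2 : ℝ)) (by linarith) hXT2 (1 / 2 + w) (by rw [half_re]; linarith)
    have a3 : h2 w = riemannZeta (1 / 2 + w) / PP X (1 / 2 + w) - 1 -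
      DD X X (T ^ (1 / 2 : ℝ)) (1 / 2 + w) := rfl
    rw [a3]
    refine a2.trans ?_
    have a4 : (T ^ (1 / 2 : ℝ)) ^ (-((1 / 2 + w).re - 2)) = Real.exp (-((1 / δ - 3 / 2) / 2 * L)) := by
      rw [← Real.rpow_mul hT0.le, Real.rpow_def_of_pos hT0, ← hLd, half_re, a1]
      congr 1
      ring
    rw [a4]
    have a5 : 2 ≤ M := by
      have c1 : 1 ≤ Real.exp (b + δ * x0 * L) := by
        apply Real.one_le_exp
        positivity
      have c2 : 0 < Real.exp C4 := Real.exp_pos _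
      rw [hM]
      nlinarith
    have a6 : Real.exp (-((1 / δ - 3 / 2) / 2 * L)) ≤
        Real.exp (-((1 / 2 - 2 * δ) * (1 / δ - x0) * L)) := by
      apply Real.exp_le_exp.mpr
      have c1 : (1 / 2 - 2 * δ) * (1 / δ - x0) ≤ (1 / δ - 3 / 2) / 2 := by
        have c2 : (1 / 2 - 2 * δ) * (1 / δ - x0) = 1 / δ / 2 - 2 * (δ * (1 / δ)) - (1 / 2 - 2 * δ) * x0 := by
          ring
        rw [c2, mul_one_div_cancel hδ.ne']
        have c3 : 0 ≤ (1 / 2 - 2 * δ) * x0 := mul_nonneg (by linarith) hx0.le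
        linarith
      have := mul_le_mul_of_nonneg_right c1 hLp.le
      linarith
    exact mul_le_mul a5 a6 (Real.exp_pos _).le hMp.le
  have hPL := sPL e (1 / 2 - 2 * δ) δ L x0 z.im (1 / δ) M q2 h2 he (by linarith) hδ.le hLp hx0
    (by linarith) hMp.le hLt H1 H2 z.re hz1 (by linarith)
  rw [Complex.re_add_im z] at hPL
  have hfin : riemannZeta (1 / 2 + z) - PP X (1 / 2 + z) * (1 + DD X X (T ^ (1 / 2 : ℝ)) (1 / 2 + z)) =
      PP X (1 / 2 + z) * h2 z := by
    simp only [hh2]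
    rw [hzG]
    ring
  rw [hfin, norm_mul]
  have hexp : Real.exp C4 + 2 ≤ Real.exp (C4 + 2) := by
    have c0 : Real.exp (C4 + 2) = Real.exp C4 * Real.exp 2 := Real.exp_add C4 2
    rw [c0]
    have c1 := Real.add_one_le_exp (2 : ℝ)
    have c2 := Real.one_le_exp hC4p.le
    nlinarith
  have hlast : M * (z.re / x0) ^ q2 * Real.exp (-((1 / 2 - 2 * δ) * (z.re - x0) * L)) ≤
      Real.exp (C4 + 2 + b + x0 * L) * (z.re / x0) ^ q2 * Real.exp (-((1 / 2 - 2 * δ) * z.re * L)) := by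
    have c1 : Real.exp (-((1 / 2 - 2 * δ) * (z.re - x0) * L)) =
        Real.exp ((1 / 2 - 2 * δ) * x0 * L) * Real.exp (-((1 / 2 - 2 * δ) * z.re * L)) := by
      rw [← Real.exp_add]
      congr 1
      ring
    rw [c1]
    have c2 : M * Real.exp ((1 / 2 - 2 * δ) * x0 * L) ≤ Real.exp (C4 + 2 + b + x0 * L) := by
      calc M * Real.exp ((1 / 2 - 2 * δ) * x0 * L) =
          (Real.exp C4 + 2) * Real.exp (b + δ * x0 * L + (1 / 2 - 2 * δ) * x0 * L) := by
            rw [hM, mul_assoc, ← Real.exp_add]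
        _ ≤ Real.exp (C4 + 2) * Real.exp (b + x0 * L) := by
            apply mul_le_mul hexp _ (Real.exp_pos _).le (Real.exp_pos _).le
            apply Real.exp_le_exp.mpr
            have : 0 ≤ x0 * L := by positivity
            nlinarith
        _ = _ := by rw [← Real.exp_add]; congr 1; ring
    have c3 : 0 ≤ (z.re / x0) ^ q2 := pow_nonneg (div_nonneg (hx0.le.trans hz1) hx0.le) _
    have c4 : 0 ≤ Real.exp (-((1 / 2 - 2 * δ) * z.re * L)) := (Real.exp_pos _).le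
    calc M * (z.re / x0) ^ q2 * (Real.exp ((1 / 2 - 2 * δ) * x0 * L) *
          Real.exp (-((1 / 2 - 2 * δ) * z.re * L))) =
        (M * Real.exp ((1 / 2 - 2 * δ) * x0 * L)) * (z.re / x0) ^ q2 *
          Real.exp (-((1 / 2 - 2 * δ) * z.re * L)) := by ring
      _ ≤ _ := by gcongr
  calc ‖PP X (1 / 2 + z)‖ * ‖h2 z‖ ≤ ‖PP X (1 / 2 + z)‖ *
      (Real.exp (C4 + 2 + b + x0 * L) * (z.re / x0) ^ q2 * Real.exp (-((1 / 2 - 2 * δ) * z.re * L))) :=
        mul_le_mul_of_nonneg_left (hPL.trans hlast) hzPn.le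
    _ = _ := by ring

end Pool.Agent.Zk2.DH
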