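import Pool.Agent.Zk1.DH.Spec

set_option autoImplicit false

/-!
# The rough part of zeta
-/

namespace Pool.Agent.Zk2.DH

open Complex Filter Topology MeasureTheory Set
open Pool.Agent.Zk1.DH

/-- the completely multiplicative function `n ↦ n ^ (-s)` on the rough numbers -/
noncomputable def fR (X : ℝ) (s : ℂ) : ℕ →*₀ ℂ where
  toFun n := if n = 0 then 0 else if ∀ p ∈ n.primeFactors, X < (p : ℝ) then (n : ℂ) ^ (-s) else 0
  map_zero' := by simp
  map_one' := by simp
  map_mul' a b := by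
    by_cases ha : a = 0
    · simp [ha]
    by_cases hb : b = 0
    · simp [hb]
    have hab : a * b ≠ 0 := mul_ne_zero ha hb
    simp only [if_neg ha, if_neg hb, if_neg hab]
    have hpf : (∀ p ∈ (a * b).primeFactors, X < (p : ℝ)) ↔
        (∀ p ∈ a.primeFactors, X < (p : ℝ)) ∧ (∀ p ∈ b.primeFactors, X < (p : ℝ)) := by
      rw [Nat.primeFactors_mul ha hb]
      constructor
      · intro h
        exact ⟨fun p hp => h p (Finset.mem_union_left _ hp), fun p hp => h p (Finset.mem_union_right _ hp)⟩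
      · rintro ⟨h1, h2⟩ p hp
        rcases Finset.mem_union.mp hp with h | h
        · exact h1 p h
        · exact h2 p h
    by_cases h1 : ∀ p ∈ a.primeFactors, X < (p : ℝ)
    · by_cases h2 : ∀ p ∈ b.primeFactors, X < (p : ℝ)
      · rw [if_pos (hpf.mpr ⟨h1, h2⟩), if_pos h1, if_pos h2]
        rw [Nat.cast_mul, Complex.natCast_mul_natCast_cpow]
      · rw [if_neg (fun h => h2 (hpf.mp h).2), if_neg h2, mul_zero]
    · rw [if_neg (fun h => h1 (hpf.mp h).1), if_neg h1, zero_mul]

lemma fR_apply (X : ℝ) (s : ℂ) (n : ℕ) : fR X s n = if n = 0 then 0 else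
    if ∀ p ∈ n.primeFactors, X < (p : ℝ) then (n : ℂ) ^ (-s) else 0 := rfl

lemma fR_norm (X : ℝ) (s : ℂ) (n : ℕ) (_hs : 1 < s.re) : ‖fR X s n‖ ≤ 1 / (n : ℝ) ^ s.re := by
  rw [fR_apply]
  split_ifs with h1 h2
  · subst h1
    simp
    positivity
  · have hn : 0 < n := Nat.pos_of_ne_zero h1
    rw [Complex.norm_natCast_cpow_of_pos hn, Complex.neg_re, Real.rpow_neg (Nat.cast_nonneg _), one_div]
  · rw [norm_zero]; positivity

lemma fR_summable (X : ℝ) (s : ℂ) (hs : 1 < s.re) : Summable (fun n => ‖fR X s n‖) :=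
  Summable.of_nonneg_of_le (fun _ => norm_nonneg _) (fun n => fR_norm X s n hs)
    (Real.summable_one_div_nat_rpow.mpr hs)

lemma one_sub_ne (p : ℕ) (hp : p.Prime) (s : ℂ) (hs : 0 < s.re) : 1 - (p : ℂ) ^ (-s) ≠ 0 := by
  intro h
  have h1 : (p : ℂ) ^ (-s) = 1 := (sub_eq_zero.mp h).symm
  have h2 : ‖(p : ℂ) ^ (-s)‖ = 1 := by rw [h1, norm_one]
  rw [Complex.norm_natCast_cpow_of_pos hp.pos, Complex.neg_re] at h2
  have h3 : (p : ℝ) ^ (-s.re) < 1 := by
    apply Real.rpow_lt_one_of_one_lt_of_neg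
    · exact_mod_cast hp.one_lt
    · linarith
  linarith

lemma PP_ne (X : ℝ) (s : ℂ) (hs : 0 < s.re) : PP X s ≠ 0 := by
  unfold PP
  rw [Finset.prod_ne_zero_iff]
  intro p hp
  exact inv_ne_zero (one_sub_ne p (Finset.mem_filter.mp hp).2 s hs)

lemma PP_diff (X : ℝ) (s : ℂ) (hs : 0 < s.re) : DifferentiableAt ℂ (PP X) s := by
  unfold PP
  refine DifferentiableAt.fun_finsetProd (fun p hp => ?_)
  have hpp := (Finset.mem_filter.mp hp).2
  have hp0 : (p : ℂ) ≠ 0 := by exact_mod_cast hpp.ne_zero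
  refine DifferentiableAt.inv ?_ (one_sub_ne p hpp s hs)
  refine (differentiableAt_const _).sub ?_
  exact (differentiableAt_id.neg).const_cpow (Or.inl hp0)

lemma DD_diff (X A B : ℝ) (s : ℂ) : DifferentiableAt ℂ (DD X A B) s := by
  unfold DD
  refine DifferentiableAt.fun_sum (fun p hp => ?_)
  have hpp := (Finset.mem_filter.mp hp).1
  have hp0 : (p : ℂ) ≠ 0 := by
    have := (Finset.mem_Ioc.mp hpp).1
    exact_mod_cast (by omega : p ≠ 0)
  exact (differentiableAt_id.neg).const_cpow (Or.inl hp0)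

/-- Euler product for the rough part. -/
lemma zeta_eq (X : ℝ) (hX : 0 ≤ X) (s : ℂ) (hs : 1 < s.re) :
    riemannZeta s = PP X s * ∑' n, fR X s n := by
  have h1 := EulerProduct.eulerProduct_completely_multiplicative_hasProd (fR_summable X s hs)
  have h2 := riemannZeta_eulerProduct_hasProd hs
  set u : Nat.Primes → ℂ := fun p => if ((p : ℕ) : ℝ) ≤ X then (1 - ((p : ℕ) : ℂ) ^ (-s))⁻¹ else 1 with hu
  set S : Finset Nat.Primes := (Finset.range (⌊X⌋₊ + 1)).subtype Nat.Prime with hS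
  have hmem : ∀ p : Nat.Primes, p ∈ S ↔ (p : ℕ) < ⌊X⌋₊ + 1 := fun p =>
    (Finset.mem_subtype).trans Finset.mem_range
  have h3 : HasProd u (∏ p ∈ S, u p) := by
    apply hasProd_prod_of_ne_finset_one
    intro p hp
    simp only [hu]
    rw [if_neg]
    intro hle
    apply hp
    rw [hmem]
    have := Nat.le_floor hle
    omega
  have h4 : ∏ p ∈ S, u p = PP X s := by
    unfold PP
    have h5 := Finset.prod_subtype_eq_prod_filter (s := Finset.range (⌊X⌋₊ + 1)) (p := Nat.Prime)
      (fun p : ℕ => (1 - (p : ℂ) ^ (-s))⁻¹)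
    rw [← h5]
    refine Finset.prod_congr rfl fun p hp => ?_
    simp only [hu]
    rw [if_pos]
    have hp2 := (hmem p).mp hp
    exact (Nat.le_floor_iff hX).mp (by omega)
  rw [h4] at h3
  have h6 := h3.mul h1
  have h7 : (fun p : Nat.Primes => u p * (1 - fR X s p)⁻¹) =
      fun p : Nat.Primes => (1 - ((p : ℕ) : ℂ) ^ (-s))⁻¹ := by
    funext p
    have hp := p.2
    have hf : fR X s p = if X < ((p : ℕ) : ℝ) then ((p : ℕ) : ℂ) ^ (-s) else 0 := by
      rw [fR_apply, if_neg hp.ne_zero]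
      have : (∀ q ∈ (p : ℕ).primeFactors, X < (q : ℝ)) ↔ X < ((p : ℕ) : ℝ) := by
        rw [Nat.Prime.primeFactors hp]
        simp
      simp only [this]
    rw [hf]
    simp only [hu]
    by_cases hle : ((p : ℕ) : ℝ) ≤ X
    · rw [if_pos hle, if_neg (not_lt.mpr hle)]
      simp
    · rw [if_neg hle, if_pos (not_le.mp hle), one_mul]
  have h8 : HasProd (fun p : Nat.Primes => (1 - ((p : ℕ) : ℂ) ^ (-s))⁻¹) (PP X s * ∑' n, fR X s n) := by
    rw [← h7]; exact h6
  exact h2.unique h8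

/-- The tail. -/
lemma rough_tail (X B : ℝ) (hX : 1 ≤ X) (hXB : X ≤ B) (s : ℂ) (hs : 2 ≤ s.re) :
    ‖riemannZeta s / PP X s - 1 - DD X X B s‖ ≤ 2 * B ^ (-(s.re - 2)) := by
  have hs1 : 1 < s.re := by linarith
  have hB : 1 ≤ B := hX.trans hXB
  have hB0 : 0 < B := by linarith
  have hP := PP_ne X s (by linarith)
  have h1 : riemannZeta s / PP X s = ∑' n, fR X s n := by
    rw [zeta_eq X (by linarith) s hs1, mul_div_cancel_left₀ _ hP]
  rw [h1]
  set S : Finset ℕ := insert 1 (rough X X B) with hSdef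
  have h1S : 1 ∉ rough X X B := by
    intro h
    unfold rough at h
    have h2 := (Finset.mem_Ioc.mp (Finset.mem_filter.mp h).1).1
    have h3 : 1 ≤ ⌊X⌋₊ := Nat.le_floor (by simpa using hX)
    omega
  have hsum : ∑ n ∈ S, fR X s n = 1 + DD X X B s := by
    rw [hSdef, Finset.sum_insert h1S, map_one]
    congr 1
    unfold DD
    refine Finset.sum_congr rfl fun r hr => ?_
    have h2 := Finset.mem_filter.mp hr
    have h3 := (Finset.mem_Ioc.mp h2.1).1
    rw [fR_apply, if_neg (by omega), if_pos h2.2]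
  have hfs : Summable (fun n => fR X s n) := (fR_summable X s hs1).of_norm
  have hS1 : HasSum (fun n => if n ∈ S then fR X s n else 0) (∑ n ∈ S, fR X s n) := by
    have h10 : HasSum (fun n => if n ∈ S then fR X s n else 0)
        (∑ n ∈ S, (fun n => if n ∈ S then fR X s n else 0) n) :=
      hasSum_sum_of_ne_finset_zero (fun b hb => by simp [hb])
    have h11 : (∑ n ∈ S, (fun n => if n ∈ S then fR X s n else 0) n) = ∑ n ∈ S, fR X s n := by
      refine Finset.sum_congr rfl fun n hn => ?_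
      simp only [if_pos hn]
    rwa [h11] at h10
  have hS2 := hfs.hasSum.sub hS1
  have hbd : ∀ n : ℕ, ‖fR X s n - (if n ∈ S then fR X s n else 0)‖ ≤
      B ^ (-(s.re - 2)) * (1 / (n : ℝ) ^ 2) := by
    intro n
    by_cases hn : n ∈ S
    · rw [if_pos hn, sub_self, norm_zero]; positivity
    rw [if_neg hn, sub_zero]
    by_cases h0 : fR X s n = 0
    · rw [h0, norm_zero]; positivity
    -- `n` is rough and larger than `B`
    have hn0 : n ≠ 0 := by
      intro h
      apply h0
      rw [fR_apply, if_pos h]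
    have hr : ∀ p ∈ n.primeFactors, X < (p : ℝ) := by
      by_contra hc
      apply h0
      rw [fR_apply, if_neg hn0, if_neg hc]
    have hn1 : n ≠ 1 := by
      intro h
      apply hn
      rw [hSdef, h]
      exact Finset.mem_insert_self _ _
    have hnX : ⌊X⌋₊ < n := by
      have hp := Nat.minFac_prime hn1
      have h2 := hr n.minFac (by
        rw [Nat.mem_primeFactors]
        exact ⟨hp, Nat.minFac_dvd n, hn0⟩)
      have h3 : n.minFac ≤ n := Nat.minFac_le (Nat.pos_of_ne_zero hn0)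
      have h4 : ⌊X⌋₊ < n.minFac := (Nat.floor_lt (by linarith)).mpr h2
      omega
    have hnB : ⌊B⌋₊ < n := by
      by_contra hc
      apply hn
      rw [hSdef]
      apply Finset.mem_insert_of_mem
      unfold rough
      rw [Finset.mem_filter, Finset.mem_Ioc]
      exact ⟨⟨hnX, by omega⟩, hr⟩
    have hnB2 : B < n := (Nat.floor_lt hB0.le).mp hnB
    have hnpos : (0 : ℝ) < n := hB0.trans hnB2
    have h5 := fR_norm X s n hs1
    refine h5.trans ?_
    have h6 : (n : ℝ) ^ s.re = (n : ℝ) ^ (s.re - 2) * (n : ℝ) ^ 2 := by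
      rw [← Real.rpow_natCast (n : ℝ) 2, ← Real.rpow_add hnpos]
      congr 1
      push_cast
      ring
    rw [h6, one_div, mul_inv, Real.rpow_neg hB0.le, one_div]
    refine mul_le_mul_of_nonneg_right ?_ (by positivity)
    apply inv_anti₀ (by positivity)
    exact Real.rpow_le_rpow hB0.le hnB2.le (by linarith)
  have hg : HasSum (fun n : ℕ => B ^ (-(s.re - 2)) * (1 / (n : ℝ) ^ 2)) (B ^ (-(s.re - 2)) * (Real.pi ^ 2 / 6)) :=
    hasSum_zeta_two.mul_left _
  have h7 := tsum_of_norm_bounded hg hbd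
  rw [hS2.tsum_eq, hsum] at h7
  have h8 : (∑' n, fR X s n) - 1 - DD X X B s = (∑' n, fR X s n) - (1 + DD X X B s) := by ring
  rw [h8]
  refine h7.trans ?_
  rw [mul_comm]
  refine mul_le_mul_of_nonneg_right ?_ (by positivity)
  have hpi := Real.pi_lt_d2
  have hpi0 := Real.pi_pos
  nlinarith

lemma rough_one (X : ℝ) (hX : 1 ≤ X) (s : ℂ) (hs : 2 ≤ s.re) :
    ‖riemannZeta s / PP X s - 1‖ ≤ 2 * X ^ (-(s.re - 2)) := by
  have h := rough_tail X X hX le_rfl s hs
  have h2 : DD X X X s = 0 := by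
    unfold DD rough
    simp
  rwa [h2, sub_zero] at h

end Pool.Agent.Zk2.DH
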