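import Pool.Agent.Zk2.DH.PL
import Pool.Agent.Zk2.DH.Rough

set_option autoImplicit false

/-!
# Preparations for `S_ZP`
-/

namespace Pool.Agent.Zk2.DH

open Complex Filter Topology MeasureTheory Set
open Pool.Agent.Zk1.DH

lemma zeta_diff {s : ℂ} (hs : s ≠ 1) : DifferentiableAt ℂ riemannZeta s := differentiableAt_riemannZeta hs

lemma zeta_ana {s : ℂ} (hs : s ≠ 1) : AnalyticAt ℂ riemannZeta s := by
  have : DifferentiableOn ℂ riemannZeta ({1}ᶜ : Set ℂ) := fun z hz =>
    (differentiableAt_riemannZeta hz).differentiableWithinAt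
  exact this.analyticAt (isOpen_compl_singleton.mem_nhds hs)

lemma zeta_logDeriv_diff {s : ℂ} (hs : s ≠ 1) (h0 : riemannZeta s ≠ 0) :
    DifferentiableAt ℂ (logDeriv riemannZeta) s := by
  unfold logDeriv
  exact ((zeta_ana hs).deriv.differentiableAt).div (zeta_diff hs) h0

lemma PP_ana (X : ℝ) {s : ℂ} (hs : 0 < s.re) : AnalyticAt ℂ (PP X) s := by
  have hop : IsOpen {z : ℂ | 0 < z.re} := isOpen_lt continuous_const Complex.continuous_re
  have : DifferentiableOn ℂ (PP X) {z : ℂ | 0 < z.re} := fun z hz =>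
    (PP_diff X z hz).differentiableWithinAt
  exact this.analyticAt (hop.mem_nhds hs)

lemma PP_logDeriv_diff (X : ℝ) {s : ℂ} (hs : 0 < s.re) :
    DifferentiableAt ℂ (logDeriv (PP X)) s := by
  unfold logDeriv
  exact ((PP_ana X hs).deriv.differentiableAt).div (PP_diff X s hs) (PP_ne X s hs)

/-- the quotient -/
noncomputable def GG (X : ℝ) (z : ℂ) : ℂ := riemannZeta (1 / 2 + z) / PP X (1 / 2 + z)

/-- the difference of the logarithmic derivatives -/
noncomputable def hh (X : ℝ) (z : ℂ) : ℂ :=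
  logDeriv riemannZeta (1 / 2 + z) - logDeriv (PP X) (1 / 2 + z)

lemma half_re (z : ℂ) : (1 / 2 + z).re = 1 / 2 + z.re := by
  simp

lemma hh_diff (X : ℝ) {z : ℂ} (hz : 0 < z.re) (h1 : 1 / 2 + z ≠ 1) (h0 : riemannZeta (1 / 2 + z) ≠ 0) :
    DifferentiableAt ℂ (hh X) z := by
  unfold hh
  have e1 : DifferentiableAt ℂ (fun z : ℂ => 1 / 2 + z) z := by fun_prop
  have h2 : 0 < (1 / 2 + z).re := by rw [half_re]; linarith
  exact ((zeta_logDeriv_diff h1 h0).comp z e1).sub ((PP_logDeriv_diff X h2).comp z e1)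

lemma GG_deriv (X : ℝ) {z : ℂ} (hz : 0 < z.re) (h1 : 1 / 2 + z ≠ 1) (h0 : riemannZeta (1 / 2 + z) ≠ 0) :
    HasDerivAt (GG X) (GG X z * hh X z) z := by
  have h2 : 0 < (1 / 2 + z).re := by rw [half_re]; linarith
  have hP := PP_ne X _ h2
  have d1 : HasDerivAt (fun z : ℂ => riemannZeta (1 / 2 + z)) (deriv riemannZeta (1 / 2 + z)) z := by
    have := (zeta_diff h1).hasDerivAt.comp_const_add (1 / 2) z
    exact this
  have d2 : HasDerivAt (fun z : ℂ => PP X (1 / 2 + z)) (deriv (PP X) (1 / 2 + z)) z := by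
    have := (PP_diff X _ h2).hasDerivAt.comp_const_add (1 / 2) z
    exact this
  have d3 := d1.div d2 hP
  have e1 : GG X z * hh X z = (deriv riemannZeta (1 / 2 + z) * PP X (1 / 2 + z) -
      riemannZeta (1 / 2 + z) * deriv (PP X) (1 / 2 + z)) / PP X (1 / 2 + z) ^ 2 := by
    unfold GG hh
    rw [logDeriv_apply, logDeriv_apply]
    generalize deriv riemannZeta (1 / 2 + z) = a1
    generalize deriv (PP X) (1 / 2 + z) = a2
    generalize riemannZeta (1 / 2 + z) = a3 at h0
    generalize PP X (1 / 2 + z) = a4 at hP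
    field_simp
  rw [e1]
  exact d3

/-- far to the right -/
lemma GG_far (X : ℝ) (hX : 2 ≤ X) {z : ℂ} (hz : 3 ≤ z.re) : ‖GG X z - 1‖ ≤ 2 * X ^ (-(3 / 2 : ℝ)) := by
  have h1 := rough_one X (by linarith) (1 / 2 + z) (by rw [half_re]; linarith)
  refine h1.trans ?_
  refine mul_le_mul_of_nonneg_left ?_ (by norm_num)
  apply Real.rpow_le_rpow_of_exponent_le (by linarith)
  rw [half_re]
  linarith

lemma GG_far2 (X : ℝ) (hX : 2 ≤ X) {z : ℂ} (hz : 4 ≤ z.re) : ‖GG X z - 1‖ ≤ 1 / 2 := by
  have h1 := rough_one X (by linarith) (1 / 2 + z) (by rw [half_re]; linarith)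
  refine h1.trans ?_
  have h2 : X ^ (-((1 / 2 + z).re - 2)) ≤ X ^ (-(2 : ℝ)) := by
    apply Real.rpow_le_rpow_of_exponent_le (by linarith)
    rw [half_re]
    linarith
  have h3 : X ^ (-(2 : ℝ)) ≤ 1 / 4 := by
    rw [Real.rpow_neg (by linarith), show (2 : ℝ) = ((2 : ℕ) : ℝ) by norm_num, Real.rpow_natCast,
      one_div]
    apply inv_anti₀ (by norm_num)
    nlinarith
  linarith

lemma ne_one_of_re {z : ℂ} (hz : 1 / 2 < z.re) : 1 / 2 + z ≠ 1 := by
  intro h
  have := congrArg Complex.re h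
  rw [half_re, Complex.one_re] at this
  linarith

lemma zeta_ne_far {z : ℂ} (hz : 1 / 2 < z.re) : riemannZeta (1 / 2 + z) ≠ 0 :=
  riemannZeta_ne_zero_of_one_lt_re (by rw [half_re]; linarith)

/-- the difference of the logarithmic derivatives far to the right -/
lemma hh_far (X : ℝ) (hX : 2 ≤ X) {z : ℂ} (hz : z.re = 4) : ‖hh X z‖ ≤ 4 * X ^ (-(3 / 2 : ℝ)) := by
  have hd := GG_deriv X (z := z) (by linarith) (ne_one_of_re (by linarith)) (zeta_ne_far (by linarith))
  have h1 : DiffContOnCl ℂ (fun w => GG X w - 1) (Metric.ball z 1) := by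
    have hD : ∀ w ∈ Metric.closedBall z 1, DifferentiableAt ℂ (fun w => GG X w - 1) w := by
      intro w hw
      have hw1 : 3 ≤ w.re := by
        have h2 : ‖w - z‖ ≤ 1 := by simpa [dist_eq_norm] using hw
        have h3 := (Complex.abs_re_le_norm (w - z)).trans h2
        rw [Complex.sub_re, abs_le] at h3
        linarith
      exact ((GG_deriv X (z := w) (by linarith) (ne_one_of_re (by linarith))
        (zeta_ne_far (by linarith))).differentiableAt).sub_const 1
    refine ⟨fun w hw => (hD w (Metric.ball_subset_closedBall hw)).differentiableWithinAt, fun w hw => ?_⟩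
    rw [closure_ball z one_ne_zero] at hw
    exact (hD w hw).continuousAt.continuousWithinAt
  have h2 := Complex.norm_deriv_le_of_forall_mem_sphere_norm_le (c := z) (R := 1)
    (C := 2 * X ^ (-(3 / 2 : ℝ))) one_pos h1 (fun w hw => by
      apply GG_far X hX
      have h2 : ‖w - z‖ = 1 := by simpa [dist_eq_norm] using hw
      have h3 := (Complex.abs_re_le_norm (w - z)).trans h2.le
      rw [Complex.sub_re, abs_le] at h3
      linarith)
  have h3 : deriv (fun w => GG X w - 1) z = GG X z * hh X z := by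
    rw [deriv_sub_const]
    exact hd.deriv
  rw [h3, norm_mul, div_one] at h2
  have h4 := GG_far2 X hX (z := z) (by linarith)
  have h5 : 1 / 2 ≤ ‖GG X z‖ := by
    have h6 := norm_sub_norm_le (1 : ℂ) (1 - GG X z)
    have h7 : (1 : ℂ) - (1 - GG X z) = GG X z := by ring
    rw [h7, norm_one, norm_sub_rev] at h6
    linarith
  have h8 : 0 ≤ ‖hh X z‖ := norm_nonneg _
  nlinarith

/-- the logarithm of the modulus, from the logarithmic derivative -/
lemma log_change {F F' : ℝ → ℂ} {a b K r : ℝ} (hab : a ≤ b) (hK : 0 ≤ K) (hr : 0 < r)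
    (hF : ∀ x ∈ Icc a b, HasDerivAt F (F x * F' x) x) (hne : ∀ x ∈ Icc a b, F x ≠ 0)
    (hb : ∀ x ∈ Icc a b, ‖F' x‖ ≤ K * r * Real.exp (-(r * (x - a)))) :
    |Real.log ‖F b‖ - Real.log ‖F a‖| ≤ K := by
  have hl : ∀ x ∈ Icc a b, HasDerivAt (fun x => Real.log ‖F x‖) ((F' x).re) x := by
    intro x hx
    have h1 := (hF x hx).norm_sq
    have h2 : ‖F x‖ ^ 2 ≠ 0 := pow_ne_zero _ (norm_ne_zero_iff.mpr (hne x hx))
    have h3 := (h1.log h2).const_mul (1 / 2 : ℝ)
    have h4 : (fun y => (1 / 2 : ℝ) * Real.log (‖F y‖ ^ 2)) = fun y => Real.log ‖F y‖ := by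
      funext y
      rw [Real.log_pow]
      push_cast
      ring
    rw [h4] at h3
    have h5 : inner ℝ (F x) (F x * F' x) = ‖F x‖ ^ 2 * (F' x).re := by
      rw [Complex.inner]
      have : (starRingEnd ℂ) (F x) * (F x * F' x) = ((‖F x‖ ^ 2 : ℝ) : ℂ) * F' x := by
        rw [← mul_assoc, Complex.conj_mul']
        push_cast
        ring
      first
        | rw [this, Complex.re_ofReal_mul]
        | (rw [show F x * F' x * (starRingEnd ℂ) (F x) = ((‖F x‖ ^ 2 : ℝ) : ℂ) * F' x by
              rw [← this]; ring, Complex.re_ofReal_mul])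
    have h6 : 1 / 2 * (2 * inner ℝ (F x) (F x * F' x) / ‖F x‖ ^ 2) = (F' x).re := by
      rw [h5]
      have h7 : ‖F x‖ ≠ 0 := norm_ne_zero_iff.mpr (hne x hx)
      field_simp
    rw [h6] at h3
    exact h3
  have he : ∀ x : ℝ, HasDerivAt (fun x => K * Real.exp (-(r * (x - a))))
      (-(K * r * Real.exp (-(r * (x - a))))) x := by
    intro x
    have h1 : HasDerivAt (fun x : ℝ => -(r * (x - a))) (-(r * 1)) x :=
      (((hasDerivAt_id x).sub_const a).const_mul r).fun_neg
    have h2 := (h1.exp).const_mul K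
    have h3 : -(K * r * Real.exp (-(r * (x - a)))) = K * (Real.exp (-(r * (x - a))) * -(r * 1)) := by
      ring
    rw [h3]
    exact h2
  have hanti : AntitoneOn (fun x => Real.log ‖F x‖ + K * Real.exp (-(r * (x - a)))) (Icc a b) := by
    apply antitoneOn_of_deriv_nonpos (convex_Icc a b)
    · intro x hx
      exact ((hl x hx).add (he x)).continuousAt.continuousWithinAt
    · intro x hx
      rw [interior_Icc] at hx
      exact ((hl x (Ioo_subset_Icc_self hx)).add (he x)).differentiableAt.differentiableWithinAt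
    · intro x hx
      rw [interior_Icc] at hx
      have hx2 := Ioo_subset_Icc_self hx
      have hd := ((hl x hx2).add (he x)).deriv
      have hd2 : deriv (fun x => Real.log ‖F x‖ + K * Real.exp (-(r * (x - a)))) x =
        (F' x).re + -(K * r * Real.exp (-(r * (x - a)))) := hd
      rw [hd2]
      have := (Complex.re_le_norm (F' x)).trans (hb x hx2)
      linarith
  have hmono : MonotoneOn (fun x => Real.log ‖F x‖ - K * Real.exp (-(r * (x - a)))) (Icc a b) := by
    apply monotoneOn_of_deriv_nonneg (convex_Icc a b)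
    · intro x hx
      exact ((hl x hx).sub (he x)).continuousAt.continuousWithinAt
    · intro x hx
      rw [interior_Icc] at hx
      exact ((hl x (Ioo_subset_Icc_self hx)).sub (he x)).differentiableAt.differentiableWithinAt
    · intro x hx
      rw [interior_Icc] at hx
      have hx2 := Ioo_subset_Icc_self hx
      have hd := ((hl x hx2).sub (he x)).deriv
      have hd2 : deriv (fun x => Real.log ‖F x‖ - K * Real.exp (-(r * (x - a)))) x =
        (F' x).re - -(K * r * Real.exp (-(r * (x - a)))) := hd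
      rw [hd2]
      have h1 := (Complex.abs_re_le_norm (F' x)).trans (hb x hx2)
      rw [abs_le] at h1
      linarith
  have ha1 : a ∈ Icc a b := ⟨le_rfl, hab⟩
  have hb1 : b ∈ Icc a b := ⟨hab, le_rfl⟩
  have h1 := hanti ha1 hb1 hab
  have h2 := hmono ha1 hb1 hab
  simp only [sub_self, mul_zero, neg_zero, Real.exp_zero, mul_one] at h1 h2
  have h3 : 0 ≤ K * Real.exp (-(r * (b - a))) := by positivity
  rw [abs_le]
  constructor <;> linarith

end Pool.Agent.Zk2.DH
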