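import Pool.Agent.Zk1.DH.Spec
import Pool.Agent.Zk3.DH.MD
import Pool.Agent.Zk3.DH.PM
import Pool.Agent.Zk3.DH.MX

set_option autoImplicit false

/-!
Large values of the sums `∑ log p p^(-s)` over one block of primes.
-/

namespace Pool.Agent.Zk2.DH

open Complex Filter Topology MeasureTheory Set
open Pool.Agent.Zk1.DH

/-- The sum over the primes in `(X, Y]`. -/
noncomputable def SS (X Y : ℝ) (s : ℂ) : ℂ :=
  ∑ p ∈ (Finset.Icc 1 ⌊Y⌋₊).filter (fun p : ℕ => p.Prime ∧ X < (p : ℝ)), (Real.log p : ℂ) * (p : ℂ) ^ (-s)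

lemma SS_eq (X Y : ℝ) (s : ℂ) : SS X Y s = ∑ p ∈ (Finset.Icc 1 ⌊Y⌋₊).filter Nat.Prime,
    if X < (p : ℝ) then (Real.log p : ℂ) * (p : ℂ) ^ (-s) else 0 := by
  unfold SS
  rw [← Finset.filter_filter, Finset.sum_filter]

lemma SS_add (X Y Z : ℝ) (hX : 0 ≤ X) (hXY : X ≤ Y) (hYZ : Y ≤ Z) (s : ℂ) :
    SS X Z s = SS X Y s + SS Y Z s := by
  unfold SS
  rw [← Finset.sum_union]
  · congr 1
    ext p
    simp only [Finset.mem_filter, Finset.mem_Icc, Finset.mem_union]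
    have hY0 : 0 ≤ Y := hX.trans hXY
    have hZ0 : 0 ≤ Z := hY0.trans hYZ
    rw [Nat.le_floor_iff hY0, Nat.le_floor_iff hZ0]
    constructor
    · rintro ⟨⟨h1, h2⟩, h3, h4⟩
      by_cases h5 : (p : ℝ) ≤ Y
      · exact Or.inl ⟨⟨h1, h5⟩, h3, h4⟩
      · exact Or.inr ⟨⟨h1, h2⟩, h3, not_le.mp h5⟩
    · rintro (⟨⟨h1, h2⟩, h3, h4⟩ | ⟨⟨h1, h2⟩, h3, h4⟩)
      · exact ⟨⟨h1, h2.trans hYZ⟩, h3, h4⟩
      · exact ⟨⟨h1, h2⟩, h3, hXY.trans_lt h4⟩
  · rw [Finset.disjoint_left]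
    intro p hp hp'
    simp only [Finset.mem_filter, Finset.mem_Icc] at hp hp'
    rw [Nat.le_floor_iff (hX.trans hXY)] at hp
    linarith [hp.1.2, hp'.2.2]

lemma SS_diff (X Y : ℝ) (z : ℂ) : DifferentiableAt ℂ (fun z => SS X Y (1 / 2 + z)) z := by
  unfold SS
  refine DifferentiableAt.fun_sum (fun p hp => ?_)
  have hp0 : (p : ℂ) ≠ 0 := by exact_mod_cast (Finset.mem_filter.mp hp).2.1.ne_zero
  refine DifferentiableAt.const_mul ?_ _
  exact DifferentiableAt.const_cpow (by fun_prop) (Or.inl hp0)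

/-- The normalised block. -/
noncomputable def fS (X Y c : ℝ) (z : ℂ) : ℂ := SS X Y (1 / 2 + z) * cexp (c * z)

lemma fS_diff (X Y c : ℝ) (z : ℂ) : DifferentiableAt ℂ (fS X Y c) z := by
  unfold fS
  refine (SS_diff X Y z).mul ?_
  fun_prop

lemma fS_norm (X Y c : ℝ) (z : ℂ) : ‖fS X Y c z‖ = ‖SS X Y (1 / 2 + z)‖ * Real.exp (c * z.re) := by
  unfold fS
  rw [norm_mul, Complex.norm_exp]
  simp

lemma cpow_re_im (p : ℕ) (hp : p ≠ 0) (u y : ℝ) : (p : ℂ) ^ (-(1 / 2 + ((u : ℂ) + y * I))) =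
    (((p : ℝ) ^ (-(1 / 2 + u)) : ℝ) : ℂ) * (p : ℂ) ^ (-(y : ℂ) * I) := by
  have hp0 : (p : ℂ) ≠ 0 := by exact_mod_cast hp
  rw [Complex.ofReal_cpow (Nat.cast_nonneg p), Complex.ofReal_natCast, ← Complex.cpow_add _ _ hp0]
  congr 1
  push_cast
  ring

/-- Moments of one block. -/
lemma block_moment (T a b u : ℝ) (k : ℕ) (hT : 8 ≤ T) (hb : 0 < b) (hk : 1 ≤ k) (hkb : k * b ≤ 1)
    (hu : 0 ≤ u) :
    ∫ y in (T / 4)..(4 * T), ‖fS (T ^ a) (T ^ b) (a * Real.log T) (u + y * I)‖ ^ (2 * k) ≤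
      300 * T * ((k.factorial : ℝ) * (b * Real.log T * (b * Real.log T + 6)) ^ k) := by
  have hT0 : 0 < T := by linarith
  have hT1 : 1 < T := by linarith
  have hL : 0 < Real.log T := Real.log_pos hT1
  set L := Real.log T with hLdef
  set N : ℕ := ⌊T ^ b⌋₊ with hN
  have hTb1 : 1 ≤ T ^ b := Real.one_le_rpow hT1.le hb.le
  have hN1 : 1 ≤ N := by
    rw [hN, Nat.one_le_floor_iff]
    exact hTb1
  have hNT : (N : ℝ) ≤ T ^ b := Nat.floor_le (by positivity)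
  have hNk : (N : ℝ) ^ k ≤ T := by
    refine (pow_le_pow_left₀ (by positivity) hNT k).trans ?_
    rw [← Real.rpow_natCast, ← Real.rpow_mul hT0.le]
    nth_rw 2 [← Real.rpow_one T]
    exact Real.rpow_le_rpow_of_exponent_le hT1.le (by linarith)
  set c : ℕ → ℂ := fun p => if T ^ a < (p : ℝ) then
    ((Real.log p * ((p : ℝ) ^ (-(1 / 2 + u)) * Real.exp (a * L * u)) : ℝ) : ℂ) else 0 with hc
  have hm := Pool.Agent.Zk3.DH.momentLF c N k hN1 (T / 4) (4 * T) (by linarith)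
  have e1 : ∀ y : ℝ, ‖fS (T ^ a) (T ^ b) (a * L) (u + y * I)‖ =
      ‖∑ p ∈ (Finset.Icc 1 N).filter Nat.Prime, c p * (p : ℂ) ^ (-(y : ℂ) * I)‖ := by
    intro y
    have h1 : ‖fS (T ^ a) (T ^ b) (a * L) (u + y * I)‖ =
        ‖((Real.exp (a * L * u) : ℝ) : ℂ) * SS (T ^ a) (T ^ b) (1 / 2 + (u + y * I))‖ := by
      rw [fS_norm, norm_mul, Complex.norm_real, Real.norm_eq_abs, abs_of_pos (Real.exp_pos _), mul_comm]
      simp
    rw [h1, SS_eq, Finset.mul_sum]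
    congr 1
    refine Finset.sum_congr rfl (fun p hp => ?_)
    have hp0 : p ≠ 0 := (Finset.mem_filter.mp hp).2.ne_zero
    rw [hc]
    simp only
    split_ifs with h
    · rw [cpow_re_im p hp0]
      push_cast
      ring
    · simp
  have e2 : ∫ y in (T / 4)..(4 * T), ‖fS (T ^ a) (T ^ b) (a * L) (u + y * I)‖ ^ (2 * k) =
      ∫ t in (T / 4)..(4 * T), ‖∑ p ∈ (Finset.Icc 1 N).filter Nat.Prime, c p *
        (p : ℂ) ^ (-(t : ℂ) * I)‖ ^ (2 * k) := by
    refine intervalIntegral.integral_congr (fun y _ => ?_)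
    change ‖fS (T ^ a) (T ^ b) (a * L) (u + y * I)‖ ^ (2 * k) = _
    rw [e1]
  rw [e2]
  refine hm.trans ?_
  have hlogN : Real.log N ≤ b * L := by
    have h1 : Real.log N ≤ Real.log (T ^ b) := Real.log_le_log (by exact_mod_cast hN1) hNT
    rwa [Real.log_rpow hT0] at h1
  have hlogN0 : 0 ≤ Real.log N := Real.log_nonneg (by exact_mod_cast hN1)
  have hsum : ∑ p ∈ (Finset.Icc 1 N).filter Nat.Prime, ‖c p‖ ^ 2 ≤ b * L * (b * L + 6) := by
    have h1 : ∀ p ∈ (Finset.Icc 1 N).filter Nat.Prime, ‖c p‖ ^ 2 ≤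
        Real.log N * (ArithmeticFunction.vonMangoldt p / p) := by
      intro p hp
      obtain ⟨hp1, hpp⟩ := Finset.mem_filter.mp hp
      have hp0 : (0 : ℝ) < p := by exact_mod_cast hpp.pos
      have hp1' : (1 : ℝ) ≤ p := by exact_mod_cast hpp.one_lt.le
      have hlp : 0 ≤ Real.log p := Real.log_nonneg hp1'
      have hlpN : Real.log p ≤ Real.log N :=
        Real.log_le_log hp0 (by exact_mod_cast (Finset.mem_Icc.mp hp1).2)
      rw [hc]
      simp only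
      split_ifs with h
      · rw [ArithmeticFunction.vonMangoldt_apply_prime hpp, Complex.norm_real, Real.norm_eq_abs, sq_abs, mul_pow]
        have h2 : ((p : ℝ) ^ (-(1 / 2 + u)) * Real.exp (a * L * u)) ^ 2 ≤ (p : ℝ)⁻¹ := by
          have h3 := Pool.Agent.Zk3.DH.coef_sq T a u p hT0 hu hpp.one_lt.le h
          rw [Complex.norm_real, Real.norm_eq_abs, sq_abs] at h3
          have e : a * u * Real.log T = a * L * u := by ring
          rwa [e] at h3
        calc Real.log p ^ 2 * ((p : ℝ) ^ (-(1 / 2 + u)) * Real.exp (a * L * u)) ^ 2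
            ≤ Real.log p ^ 2 * (p : ℝ)⁻¹ := mul_le_mul_of_nonneg_left h2 (by positivity)
          _ = Real.log p * (Real.log p / p) := by ring
          _ ≤ Real.log N * (Real.log p / p) := mul_le_mul_of_nonneg_right hlpN (by positivity)
      · simp
        have : 0 ≤ ArithmeticFunction.vonMangoldt p := ArithmeticFunction.vonMangoldt_nonneg
        positivity
    refine (Finset.sum_le_sum h1).trans ?_
    rw [← Finset.mul_sum]
    have h2 : ∑ p ∈ (Finset.Icc 1 N).filter Nat.Prime, ArithmeticFunction.vonMangoldt p / p ≤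
        Real.log N + 6 := by
      refine le_trans ?_ (H370.nt_mertens_upper N hN1)
      refine Finset.sum_le_sum_of_subset_of_nonneg (Finset.filter_subset _ _) ?_
      intro d _ _
      exact div_nonneg ArithmeticFunction.vonMangoldt_nonneg (Nat.cast_nonneg _)
    have h3 : 0 ≤ ∑ p ∈ (Finset.Icc 1 N).filter Nat.Prime, ArithmeticFunction.vonMangoldt p / (p : ℝ) :=
      Finset.sum_nonneg (fun d _ => div_nonneg ArithmeticFunction.vonMangoldt_nonneg (Nat.cast_nonneg _))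
    calc Real.log N * ∑ p ∈ (Finset.Icc 1 N).filter Nat.Prime, ArithmeticFunction.vonMangoldt p / (p : ℝ)
        ≤ (b * L) * (Real.log N + 6) := mul_le_mul hlogN h2 h3 (by positivity)
      _ ≤ b * L * (b * L + 6) := mul_le_mul_of_nonneg_left (by linarith) (by positivity)
  have hsum0 : 0 ≤ ∑ p ∈ (Finset.Icc 1 N).filter Nat.Prime, ‖c p‖ ^ 2 :=
    Finset.sum_nonneg (fun _ _ => by positivity)
  have h60 : 60 * (4 * T - T / 4 + (N : ℝ) ^ k) ≤ 300 * T := by linarith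
  exact mul_le_mul h60 (mul_le_mul_of_nonneg_left (pow_le_pow_left₀ hsum0 hsum k) (by positivity))
    (by positivity) (by positivity)

/-- Large values of one block. -/
lemma block_large : ∃ C : ℝ, 0 < C ∧ ∀ (T a b x W v : ℝ) (k : ℕ), 8 ≤ T → 0 < b → 1 ≤ k → k * b ≤ 1 →
    0 ≤ a → 6 ≤ b * Real.log T → 0 < x → x ≤ W → W ≤ T / 8 → 0 < v →
    volume {t : ℝ | T / 2 ≤ t ∧ t ≤ 3 * T ∧ ∃ z : ℂ, x ≤ z.re ∧ z.re ≤ 2 * x ∧ |z.im - t| ≤ W ∧
      v * Real.log T < ‖SS (T ^ a) (T ^ b) (1 / 2 + z)‖} ≤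
    ENNReal.ofReal (C * T * (W / x) * (2 * b / v ^ 2) ^ k * Real.exp (-(2 * (k * a) * x * Real.log T))) := by
  obtain ⟨C, hC, hmx⟩ := Pool.Agent.Zk3.DH.sMX (1 / 2) (by norm_num) le_rfl
  refine ⟨C * 300, by positivity, ?_⟩
  intro T a b x W v k hT hb hk hkb ha hbL hx hxW hWT hv
  have hT0 : 0 < T := by linarith
  have hT1 : 1 < T := by linarith
  have hL : 0 < Real.log T := Real.log_pos hT1
  set L := Real.log T with hLdef
  have hkR : (1 : ℝ) ≤ k := by exact_mod_cast hk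
  have h1 := hmx k T x W (300 * T * ((k.factorial : ℝ) * (b * L * (b * L + 6)) ^ k))
    (v * L * Real.exp (a * L * x)) (fS (T ^ a) (T ^ b) (a * L)) hk hT hx hxW hWT (by linarith)
    (by positivity) (by positivity) (fun z _ => fS_diff _ _ _ z)
    (fun u hu1 _ => block_moment T a b u k hT hb hk hkb (by nlinarith))
  have hset : {t : ℝ | T / 2 ≤ t ∧ t ≤ 3 * T ∧ ∃ z : ℂ, x ≤ z.re ∧ z.re ≤ 2 * x ∧ |z.im - t| ≤ W ∧
      v * L < ‖SS (T ^ a) (T ^ b) (1 / 2 + z)‖} ⊆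
      {t : ℝ | T / 2 ≤ t ∧ t ≤ 3 * T ∧ ∃ z : ℂ, x ≤ z.re ∧ z.re ≤ 2 * x ∧ |z.im - t| ≤ W ∧
        v * L * Real.exp (a * L * x) < ‖fS (T ^ a) (T ^ b) (a * L) z‖} := by
    rintro t ⟨ht1, ht2, z, hz1, hz2, hz3, hz4⟩
    refine ⟨ht1, ht2, z, hz1, hz2, hz3, ?_⟩
    rw [fS_norm]
    have h2 : Real.exp (a * L * x) ≤ Real.exp (a * L * z.re) :=
      Real.exp_le_exp.mpr (mul_le_mul_of_nonneg_left hz1 (by positivity))
    calc v * L * Real.exp (a * L * x) ≤ v * L * Real.exp (a * L * z.re) :=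
          mul_le_mul_of_nonneg_left h2 (by positivity)
      _ < _ := mul_lt_mul_of_pos_right hz4 (Real.exp_pos _)
  refine (measure_mono hset).trans (h1.trans (ENNReal.ofReal_le_ofReal ?_))
  -- the arithmetic
  have h2 : (k.factorial : ℝ) ≤ (k : ℝ) ^ k := by exact_mod_cast Nat.factorial_le_pow k
  have h3 : b * L * (b * L + 6) ≤ 2 * (b * L) ^ 2 := by nlinarith
  have h4 : (k.factorial : ℝ) * (b * L * (b * L + 6)) ^ k ≤ (2 * b * L ^ 2) ^ k := by
    calc (k.factorial : ℝ) * (b * L * (b * L + 6)) ^ k ≤ (k : ℝ) ^ k * (2 * (b * L) ^ 2) ^ k :=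
          mul_le_mul h2 (pow_le_pow_left₀ (by positivity) h3 k) (by positivity) (by positivity)
      _ = (k * (2 * (b * L) ^ 2)) ^ k := (mul_pow _ _ _).symm
      _ ≤ (2 * b * L ^ 2) ^ k := by
          refine pow_le_pow_left₀ (by positivity) ?_ k
          have : k * (2 * (b * L) ^ 2) = (k * b) * (2 * b * L ^ 2) := by ring
          rw [this]
          exact mul_le_of_le_one_left (by positivity) hkb
  have h5 : ((v * L * Real.exp (a * L * x)) ^ (2 * k))⁻¹ =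
      ((v * L) ^ (2 * k))⁻¹ * Real.exp (-(2 * (k * a) * x * L)) := by
    rw [mul_pow, mul_inv, ← Real.exp_nat_mul, Real.exp_neg]
    congr 2
    push_cast
    ring_nf
  have h6 : (2 * b * L ^ 2) ^ k * ((v * L) ^ (2 * k))⁻¹ = (2 * b / v ^ 2) ^ k := by
    rw [pow_mul, ← inv_pow, ← mul_pow]
    congr 1
    field_simp
  rw [h5]
  have hWx : 0 ≤ W / x := div_nonneg (by linarith) hx.le
  calc C * (W / x) * (300 * T * ((k.factorial : ℝ) * (b * L * (b * L + 6)) ^ k)) *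
        (((v * L) ^ (2 * k))⁻¹ * Real.exp (-(2 * (k * a) * x * L)))
      ≤ C * (W / x) * (300 * T * ((2 * b * L ^ 2) ^ k)) *
        (((v * L) ^ (2 * k))⁻¹ * Real.exp (-(2 * (k * a) * x * L))) := by gcongr
    _ = C * 300 * T * (W / x) * ((2 * b * L ^ 2) ^ k * ((v * L) ^ (2 * k))⁻¹) *
        Real.exp (-(2 * (k * a) * x * L)) := by ring
    _ = _ := by rw [h6]

end Pool.Agent.Zk2.DH
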