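import Pool.Agent.Zk2.DH.MP1

set_option autoImplicit false

/-!
Large values of the sums over the primes, one dyadic scale.
-/

namespace Pool.Agent.Zk2.DH

open Complex Filter Topology MeasureTheory Set
open Pool.Agent.Zk1.DH

lemma geo_bound (a0 q A : ℝ) (ha0 : 0 < a0) (hq : 0 < q) (hq1 : q ≤ 1) (hA : 0 < A) : ∃ C2 : ℝ, 0 < C2 ∧
    ∀ i k : ℕ, 1 ≤ k → (k : ℝ) * (a0 * q ^ (4 * i)) ≤ 1 → (A * q ^ (2 * i)) ^ k ≤ C2 * q ^ (2 * i) := by
  set M : ℝ := max A 1 with hM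
  set m : ℕ := ⌈A ^ 2 / a0⌉₊ with hm
  have hM1 : 1 ≤ M := le_max_right _ _
  refine ⟨M ^ m * A, by positivity, fun i k hk hkb => ?_⟩
  have hMm : 1 ≤ M ^ m := one_le_pow₀ hM1
  have hy : 0 < A * q ^ (2 * i) := by positivity
  have hMA : A * q ^ (2 * i) ≤ M ^ m * A * q ^ (2 * i) := by
    rw [mul_assoc]
    exact le_mul_of_one_le_left hy.le hMm
  rcases le_or_gt (A * q ^ (2 * i)) 1 with h | h
  · have h1 : (A * q ^ (2 * i)) ^ k ≤ (A * q ^ (2 * i)) ^ 1 := pow_le_pow_of_le_one hy.le h hk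
    rw [pow_one] at h1
    exact h1.trans hMA
  · have hkm : k ≤ m := by
      have h1 : (1:ℝ) ≤ (A * q ^ (2 * i)) ^ 2 := one_le_pow₀ h.le
      have h2 : (k : ℝ) ≤ A ^ 2 / a0 := by
        rw [le_div_iff₀ ha0]
        have e : (A * q ^ (2 * i)) ^ 2 = A ^ 2 * q ^ (4 * i) := by ring
        rw [e] at h1
        have h3 : 0 < q ^ (4 * i) := by positivity
        by_contra h4
        push Not at h4
        have h5 : A ^ 2 * q ^ (4 * i) < (k * a0) * q ^ (4 * i) := mul_lt_mul_of_pos_right h4 h3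
        have e2 : (k * a0) * q ^ (4 * i) = (k : ℝ) * (a0 * q ^ (4 * i)) := by ring
        linarith
      exact_mod_cast h2.trans (Nat.le_ceil _)
    have hqi : q ^ (2 * i) ≤ 1 := pow_le_one₀ hq.le hq1
    have h1 : A * q ^ (2 * i) ≤ M := (mul_le_of_le_one_right hA.le hqi).trans (le_max_left _ _)
    calc (A * q ^ (2 * i)) ^ k ≤ M ^ k := pow_le_pow_left₀ hy.le h1 k
      _ ≤ M ^ m := pow_le_pow_right₀ hM1 hkm
      _ ≤ M ^ m * (A * q ^ (2 * i)) := le_mul_of_one_le_right (by positivity) h.le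
      _ = _ := by ring

/-- The blocks. -/
lemma SS_blocks (T a0 q : ℝ) (hT : 1 ≤ T) (ha0 : 0 < a0) (hq : 0 < q) (hq1 : q ≤ 1) (s : ℂ) (I : ℕ) :
    SS (T ^ (a0 * q ^ (4 * I))) (T ^ a0) s =
      ∑ i ∈ Finset.range I, SS (T ^ (a0 * q ^ (4 * (i + 1)))) (T ^ (a0 * q ^ (4 * i))) s := by
  induction I with
  | zero =>
    simp only [mul_zero, pow_zero, mul_one, Finset.range_zero, Finset.sum_empty]
    unfold SS
    refine Finset.sum_eq_zero (fun p hp => ?_)
    simp only [Finset.mem_filter, Finset.mem_Icc] at hp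
    rw [Nat.le_floor_iff (by positivity)] at hp
    linarith [hp.1.2, hp.2.2]
  | succ I ih =>
    rw [Finset.sum_range_succ, ← ih, add_comm (SS (T ^ (a0 * q ^ (4 * I))) (T ^ a0) s)]
    refine SS_add _ _ _ (by positivity) ?_ ?_ s
    · refine Real.rpow_le_rpow_of_exponent_le hT ?_
      refine mul_le_mul_of_nonneg_left ?_ ha0.le
      exact pow_le_pow_of_le_one hq.le hq1 (by omega)
    · refine Real.rpow_le_rpow_of_exponent_le hT ?_
      exact mul_le_of_le_one_right ha0.le (pow_le_one₀ hq.le hq1)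

/-- One dyadic scale. -/
lemma scale_large (a0 η ε : ℝ) (ha0 : 0 < a0) (ha : 8 * a0 ≤ ε) (hε : ε ≤ 1) (hη : 0 < η) :
    ∃ C : ℝ, 0 < C ∧ ∀ (T x W : ℝ) (I : ℕ), 8 ≤ T →
    (∀ i < I, 6 ≤ a0 * (1 - ε / 32) ^ (4 * i) * Real.log T) → 0 < x → x ≤ W → W ≤ T / 8 →
    volume {t : ℝ | T / 2 ≤ t ∧ t ≤ 3 * T ∧ ∃ z : ℂ, x ≤ z.re ∧ z.re ≤ 2 * x ∧ |z.im - t| ≤ W ∧
      η / 2 * Real.log T < ‖SS (T ^ (a0 * (1 - ε / 32) ^ (4 * I))) (T ^ a0) (1 / 2 + z)‖} ≤
    ENNReal.ofReal (C * T * (W / x) * Real.exp (-(2 * (1 - ε / 2) * x * Real.log T))) := by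
  set q : ℝ := 1 - ε / 32 with hq
  have hε0 : 0 < ε := by linarith
  have hq0 : 0 < q := by rw [hq]; linarith
  have hq1 : q < 1 := by rw [hq]; linarith
  obtain ⟨C1, hC1, hbl⟩ := block_large
  set A : ℝ := 8 * a0 / ((1 - q) ^ 2 * η ^ 2) with hA
  have hA0 : 0 < A := by
    have : 0 < 1 - q := by linarith
    positivity
  obtain ⟨C2, hC2, hgeo⟩ := geo_bound a0 q A ha0 hq0 hq1.le hA0
  refine ⟨C1 * C2 * (1 / (1 - q)), by
    have : 0 < 1 - q := by linarith
    positivity, ?_⟩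
  intro T x W I hT hI hx hxW hWT
  have hT0 : 0 < T := by linarith
  have hL : 0 < Real.log T := Real.log_pos (by linarith)
  set L := Real.log T with hLdef
  have h1q : 0 < 1 - q := by linarith
  have hWx : 0 ≤ W / x := div_nonneg (by linarith) hx.le
  -- one block
  have hone : ∀ i ∈ Finset.range I,
      volume {t : ℝ | T / 2 ≤ t ∧ t ≤ 3 * T ∧ ∃ z : ℂ, x ≤ z.re ∧ z.re ≤ 2 * x ∧ |z.im - t| ≤ W ∧
        ((1 - q) / 2 * η * q ^ i) * L <
          ‖SS (T ^ (a0 * q ^ (4 * (i + 1)))) (T ^ (a0 * q ^ (4 * i))) (1 / 2 + z)‖} ≤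
      ENNReal.ofReal (C1 * C2 * T * (W / x) * Real.exp (-(2 * (1 - ε / 2) * x * L)) * q ^ i) := by
    intro i hi
    have hiI := hI i (Finset.mem_range.mp hi)
    set b : ℝ := a0 * q ^ (4 * i) with hb
    have hb0 : 0 < b := by positivity
    have hba0 : b ≤ a0 := mul_le_of_le_one_right ha0.le (pow_le_one₀ hq0.le hq1.le)
    have hb8 : b ≤ 1 / 8 := by linarith
    set k : ℕ := ⌊1 / b⌋₊ with hk
    have hk1 : 1 ≤ k := by
      rw [hk, Nat.one_le_floor_iff, le_div_iff₀ hb0]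
      linarith
    have hkb : (k : ℝ) * b ≤ 1 := by
      have := Nat.floor_le (a := 1 / b) (by positivity)
      rwa [le_div_iff₀ hb0] at this
    have hkb2 : 1 - b ≤ (k : ℝ) * b := by
      have := Nat.lt_floor_add_one (1 / b)
      rw [div_lt_iff₀ hb0] at this
      have h2 : ((⌊1 / b⌋₊ : ℝ) + 1) * b = k * b + b := by rw [hk]; ring
      linarith
    have h1 := hbl T (a0 * q ^ (4 * (i + 1))) b x W ((1 - q) / 2 * η * q ^ i) k hT hb0 hk1 hkb (by positivity)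
      hiI hx hxW hWT (by positivity)
    refine h1.trans (ENNReal.ofReal_le_ofReal ?_)
    have h2 : (2 * b / ((1 - q) / 2 * η * q ^ i) ^ 2) ^ k ≤ C2 * q ^ (2 * i) := by
      have e : 2 * b / ((1 - q) / 2 * η * q ^ i) ^ 2 = A * q ^ (2 * i) := by
        have e1 : q ^ (4 * i) = q ^ (2 * i) * (q ^ i) ^ 2 := by ring
        rw [hA, hb, e1]
        field_simp
        ring
      rw [e]
      exact hgeo i k hk1 hkb
    have h3 : q ^ (2 * i) ≤ q ^ i := pow_le_pow_of_le_one hq0.le hq1.le (by omega)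
    have h4 : Real.exp (-(2 * (k * (a0 * q ^ (4 * (i + 1)))) * x * L)) ≤
        Real.exp (-(2 * (1 - ε / 2) * x * L)) := by
      refine Real.exp_le_exp.mpr (neg_le_neg ?_)
      have h5 : 1 - ε / 2 ≤ k * (a0 * q ^ (4 * (i + 1))) := by
        have h6 : (k : ℝ) * (a0 * q ^ (4 * (i + 1))) = (k * b) * q ^ 4 := by
          rw [hb]
          ring
        rw [h6]
        have h7 : 1 - ε / 8 ≤ q ^ 4 := by
          have := one_add_mul_le_pow (a := -(ε / 32)) (by linarith) 4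
          have e2 : 1 + -(ε / 32) = q := by rw [hq]; ring
          rw [e2] at this
          norm_num at this
          linarith
        have h8 : 1 - ε / 8 ≤ k * b := by linarith
        have h9 : (1 - ε / 8) * (1 - ε / 8) ≤ (k * b) * q ^ 4 :=
          mul_le_mul h8 h7 (by linarith) (by positivity)
        nlinarith
      gcongr
    have h5 : 0 ≤ C1 * T * (W / x) := by positivity
    calc C1 * T * (W / x) * (2 * b / ((1 - q) / 2 * η * q ^ i) ^ 2) ^ k *
          Real.exp (-(2 * (k * (a0 * q ^ (4 * (i + 1)))) * x * L))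
        ≤ C1 * T * (W / x) * (C2 * q ^ i) * Real.exp (-(2 * (1 - ε / 2) * x * L)) := by
          refine mul_le_mul (mul_le_mul_of_nonneg_left (h2.trans ?_) h5) h4 (by positivity) (by positivity)
          exact mul_le_mul_of_nonneg_left h3 hC2.le
      _ = _ := by ring
  -- the union
  have hsub : {t : ℝ | T / 2 ≤ t ∧ t ≤ 3 * T ∧ ∃ z : ℂ, x ≤ z.re ∧ z.re ≤ 2 * x ∧ |z.im - t| ≤ W ∧
      η / 2 * L < ‖SS (T ^ (a0 * q ^ (4 * I))) (T ^ a0) (1 / 2 + z)‖} ⊆
      ⋃ i ∈ Finset.range I, {t : ℝ | T / 2 ≤ t ∧ t ≤ 3 * T ∧ ∃ z : ℂ, x ≤ z.re ∧ z.re ≤ 2 * x ∧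
        |z.im - t| ≤ W ∧ ((1 - q) / 2 * η * q ^ i) * L <
          ‖SS (T ^ (a0 * q ^ (4 * (i + 1)))) (T ^ (a0 * q ^ (4 * i))) (1 / 2 + z)‖} := by
    rintro t ⟨ht1, ht2, z, hz1, hz2, hz3, hz4⟩
    by_contra hcon
    rw [mem_iUnion₂] at hcon
    push Not at hcon
    have hall : ∀ i ∈ Finset.range I,
        ‖SS (T ^ (a0 * q ^ (4 * (i + 1)))) (T ^ (a0 * q ^ (4 * i))) (1 / 2 + z)‖ ≤
          ((1 - q) / 2 * η * q ^ i) * L := by
      intro i hi
      by_contra h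
      exact hcon i hi ⟨ht1, ht2, z, hz1, hz2, hz3, not_le.mp h⟩
    rw [SS_blocks T a0 q (by linarith) ha0 hq0 hq1.le] at hz4
    have h1 := (norm_sum_le _ _).trans (Finset.sum_le_sum hall)
    have h2 : ∑ i ∈ Finset.range I, ((1 - q) / 2 * η * q ^ i) * L ≤ η / 2 * L := by
      have e : ∑ i ∈ Finset.range I, ((1 - q) / 2 * η * q ^ i) * L =
          (η / 2 * L) * ((1 - q) * ∑ i ∈ Finset.range I, q ^ i) := by
        rw [Finset.mul_sum, Finset.mul_sum]
        refine Finset.sum_congr rfl (fun i _ => by ring)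
      rw [e]
      refine mul_le_of_le_one_right (by positivity) ?_
      have h3 := mul_geom_sum q I
      have h4 : 0 ≤ q ^ I := by positivity
      nlinarith
    linarith
  refine (measure_mono hsub).trans ((measure_biUnion_finset_le _ _).trans
    ((Finset.sum_le_sum hone).trans ?_))
  rw [← ENNReal.ofReal_sum_of_nonneg (fun i _ => by positivity)]
  refine ENNReal.ofReal_le_ofReal ?_
  rw [← Finset.mul_sum]
  have h3 : ∑ i ∈ Finset.range I, q ^ i ≤ 1 / (1 - q) := by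
    rw [le_div_iff₀ h1q]
    have h3 := mul_geom_sum q I
    have h4 : 0 ≤ q ^ I := by positivity
    nlinarith
  calc C1 * C2 * T * (W / x) * Real.exp (-(2 * (1 - ε / 2) * x * L)) * ∑ i ∈ Finset.range I, q ^ i
      ≤ C1 * C2 * T * (W / x) * Real.exp (-(2 * (1 - ε / 2) * x * L)) * (1 / (1 - q)) :=
        mul_le_mul_of_nonneg_left h3 (by positivity)
    _ = _ := by ring

end Pool.Agent.Zk2.DH
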