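import Pool.Agent.Zk2.DH.MP2

set_option autoImplicit false

/-!
The measure of the heights near which the logarithmic derivative of the Euler product is large.
-/

namespace Pool.Agent.Zk2.DH

open Complex Filter Topology MeasureTheory Set
open Pool.Agent.Zk1.DH

/-- The prime powers. -/
def PPW : Prop := ∀ a0 : ℝ, 0 < a0 → ∃ C T0 : ℝ, 0 ≤ C ∧ 2 ≤ T0 ∧ ∀ (T : ℝ) (z : ℂ), T0 ≤ T → 0 < z.re →
  ‖logDeriv (PP (T ^ a0)) (1 / 2 + z) + SS 0 (T ^ a0) (1 / 2 + z)‖ ≤ 4 * a0 * Real.log T + C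

/-- The small primes. -/
lemma SS_small (Y : ℝ) (s : ℂ) (hY : 1 ≤ Y) (hs : 0 ≤ s.re) : ‖SS 0 Y s‖ ≤ Y * Real.log Y := by
  unfold SS
  refine (norm_sum_le _ _).trans ?_
  have h1 : ∀ p ∈ (Finset.Icc 1 ⌊Y⌋₊).filter (fun p : ℕ => p.Prime ∧ 0 < (p : ℝ)),
      ‖(Real.log p : ℂ) * (p : ℂ) ^ (-s)‖ ≤ Real.log Y := by
    intro p hp
    simp only [Finset.mem_filter, Finset.mem_Icc] at hp
    have hp1 : (1 : ℝ) ≤ p := by exact_mod_cast hp.1.1
    have hpY : (p : ℝ) ≤ Y := (Nat.le_floor_iff (by linarith)).mp hp.1.2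
    rw [norm_mul, Complex.norm_natCast_cpow_of_pos (by omega), Complex.norm_real, Real.norm_eq_abs,
      abs_of_nonneg (Real.log_nonneg hp1)]
    have h2 : (p : ℝ) ^ (-s).re ≤ 1 := by
      refine Real.rpow_le_one_of_one_le_of_nonpos hp1 ?_
      simpa using hs
    calc Real.log p * (p : ℝ) ^ (-s).re ≤ Real.log p * 1 :=
          mul_le_mul_of_nonneg_left h2 (Real.log_nonneg hp1)
      _ = Real.log p := mul_one _
      _ ≤ Real.log Y := Real.log_le_log (by linarith) hpY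
  refine (Finset.sum_le_card_nsmul _ _ _ h1).trans ?_
  rw [nsmul_eq_mul]
  refine mul_le_mul_of_nonneg_right ?_ (Real.log_nonneg hY)
  have h2 := Finset.card_filter_le (Finset.Icc 1 ⌊Y⌋₊) (fun p : ℕ => p.Prime ∧ 0 < (p : ℝ))
  have h3 : (Finset.Icc 1 ⌊Y⌋₊).card = ⌊Y⌋₊ := by simp
  rw [h3] at h2
  calc (((Finset.Icc 1 ⌊Y⌋₊).filter (fun p : ℕ => p.Prime ∧ 0 < (p : ℝ))).card : ℝ) ≤ (⌊Y⌋₊ : ℝ) := by
        exact_mod_cast h2
    _ ≤ Y := Nat.floor_le (by linarith)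

lemma half_pow_sum (J : ℕ) : ∑ j ∈ Finset.range J, ((1 : ℝ) / 2) ^ j ≤ 2 := by
  have h := mul_geom_sum ((1 : ℝ) / 2) J
  have h2 : (0 : ℝ) ≤ (1 / 2) ^ J := by positivity
  nlinarith

/-- All dyadic scales. -/
lemma all_scales (ε : ℝ) (hε0 : 0 < ε) (hε : ε ≤ 1) (C : ℝ) (hC : 0 < C) (T x W : ℝ) (hT : 8 ≤ T)
    (hx : 1 / Real.log T ≤ x) (hxW : x ≤ W) (hWT : W ≤ T / 8) (g : ℂ → ℝ) (v : ℝ)
    (h : ∀ x' W' : ℝ, 0 < x' → x' ≤ W' → W' ≤ T / 8 →
      volume {t : ℝ | T / 2 ≤ t ∧ t ≤ 3 * T ∧ ∃ z : ℂ, x' ≤ z.re ∧ z.re ≤ 2 * x' ∧ |z.im - t| ≤ W' ∧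
        v < g z} ≤
      ENNReal.ofReal (C * T * (W' / x') * Real.exp (-(2 * (1 - ε / 2) * x' * Real.log T)))) :
    volume {t : ℝ | T / 2 ≤ t ∧ t ≤ 3 * T ∧ ∃ z : ℂ, x ≤ z.re ∧ z.re < 1 / 2 ∧ |z.im - t| ≤ W ∧
      v < g z} ≤ ENNReal.ofReal (2 * C * T * (W / x) * Real.exp (-(2 * (1 - ε) * x * Real.log T))) := by
  have hL : 0 < Real.log T := Real.log_pos (by linarith)
  set L := Real.log T with hLdef
  have hx0 : 0 < x := lt_of_lt_of_le (by positivity) hx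
  have hxL : 1 ≤ x * L := by rwa [div_le_iff₀ hL] at hx
  have hT0 : 0 < T := by linarith
  have hWx : 0 ≤ W / x := div_nonneg (by linarith) hx0.le
  set J : ℕ := ⌈1 / x⌉₊ with hJ
  have hone : ∀ j ∈ (Finset.range J).filter (fun j => (2 : ℝ) ^ j * x ≤ 1 / 2),
      volume {t : ℝ | T / 2 ≤ t ∧ t ≤ 3 * T ∧ ∃ z : ℂ, 2 ^ j * x ≤ z.re ∧ z.re ≤ 2 * (2 ^ j * x) ∧
        |z.im - t| ≤ max W (2 ^ j * x) ∧ v < g z} ≤
      ENNReal.ofReal (C * T * (W / x) * Real.exp (-(2 * (1 - ε) * x * L)) * (1 / 2) ^ j) := by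
    intro j hj
    obtain ⟨-, hj2⟩ := Finset.mem_filter.mp hj
    refine (h (2 ^ j * x) (max W (2 ^ j * x)) (by positivity) (le_max_right _ _)
      (max_le hWT (by linarith))).trans (ENNReal.ofReal_le_ofReal ?_)
    have h2j : (1 : ℝ) ≤ 2 ^ j := one_le_pow₀ (by norm_num)
    have h1 : max W (2 ^ j * x) / (2 ^ j * x) ≤ W / x := by
      rw [div_le_div_iff₀ (by positivity) hx0]
      have h3 : max W (2 ^ j * x) ≤ W * 2 ^ j := by
        refine max_le (le_mul_of_one_le_right (by linarith) h2j) ?_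
        rw [mul_comm]
        exact mul_le_mul_of_nonneg_right hxW (by positivity)
      calc max W (2 ^ j * x) * x ≤ (W * 2 ^ j) * x := mul_le_mul_of_nonneg_right h3 hx0.le
        _ = _ := by ring
    have h2 : Real.exp (-(2 * (1 - ε / 2) * (2 ^ j * x) * L)) ≤
        Real.exp (-(2 * (1 - ε) * x * L)) * (1 / 2) ^ j := by
      have h3 : ((1 : ℝ) / 2) ^ j = Real.exp (-(j * Real.log 2)) := by
        rw [Real.exp_neg, mul_comm, Real.exp_mul, Real.exp_log (by norm_num), Real.rpow_natCast, one_div,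
          inv_pow]
      rw [h3, ← Real.exp_add]
      refine Real.exp_le_exp.mpr ?_
      have h4 : (j : ℝ) + 1 ≤ 2 ^ j := by exact_mod_cast Nat.lt_two_pow_self
      have h5 : Real.log 2 ≤ 1 := by
        have := Real.log_two_lt_d9
        linarith
      have h6 : (j : ℝ) * Real.log 2 ≤ j := mul_le_of_le_one_right (Nat.cast_nonneg j) h5
      have h7 : 2 * (1 - ε) * x * L + j ≤ 2 * (1 - ε / 2) * (2 ^ j * x) * L := by
        have h8 : 2 * (1 - ε / 2) * (2 ^ j * x) * L = (2 * (1 - ε / 2) * 2 ^ j) * (x * L) := by ring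
        have h9 : 2 * (1 - ε) * x * L = (2 * (1 - ε)) * (x * L) := by ring
        rw [h8, h9]
        have h10 : 2 * (1 - ε) + j ≤ 2 * (1 - ε / 2) * 2 ^ j := by nlinarith
        have h11 : (2 * (1 - ε) + j) * (x * L) ≤ 2 * (1 - ε / 2) * 2 ^ j * (x * L) :=
          mul_le_mul_of_nonneg_right h10 (by positivity)
        have h12 : (j : ℝ) ≤ j * (x * L) := le_mul_of_one_le_right (Nat.cast_nonneg j) hxL
        nlinarith
      linarith
    calc C * T * (max W (2 ^ j * x) / (2 ^ j * x)) * Real.exp (-(2 * (1 - ε / 2) * (2 ^ j * x) * L))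
        ≤ C * T * (W / x) * (Real.exp (-(2 * (1 - ε) * x * L)) * (1 / 2) ^ j) := by gcongr
      _ = _ := by ring
  have hsub : {t : ℝ | T / 2 ≤ t ∧ t ≤ 3 * T ∧ ∃ z : ℂ, x ≤ z.re ∧ z.re < 1 / 2 ∧ |z.im - t| ≤ W ∧
      v < g z} ⊆ ⋃ j ∈ (Finset.range J).filter (fun j => (2 : ℝ) ^ j * x ≤ 1 / 2),
      {t : ℝ | T / 2 ≤ t ∧ t ≤ 3 * T ∧ ∃ z : ℂ, 2 ^ j * x ≤ z.re ∧ z.re ≤ 2 * (2 ^ j * x) ∧
        |z.im - t| ≤ max W (2 ^ j * x) ∧ v < g z} := by
    rintro t ⟨ht1, ht2, z, hz1, hz2, hz3, hz4⟩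
    obtain ⟨j, hj1, hj2⟩ := exists_nat_pow_near (x := z.re / x) (y := 2)
      (by rwa [le_div_iff₀ hx0, one_mul]) (by norm_num)
    rw [le_div_iff₀ hx0] at hj1
    rw [div_lt_iff₀ hx0] at hj2
    rw [mem_iUnion₂]
    refine ⟨j, ?_, ht1, ht2, z, hj1, ?_, hz3.trans (le_max_left _ _), hz4⟩
    · rw [Finset.mem_filter, Finset.mem_range]
      refine ⟨?_, by linarith⟩
      have h1 : (j : ℝ) < 2 ^ j := by exact_mod_cast Nat.lt_two_pow_self
      have h2 : (2 : ℝ) ^ j ≤ 1 / x := by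
        rw [le_div_iff₀ hx0]
        linarith
      have h3 := Nat.le_ceil (1 / x)
      have h4 : (j : ℝ) < J := by
        rw [hJ]
        linarith
      exact_mod_cast h4
    · have : (2 : ℝ) ^ (j + 1) * x = 2 * (2 ^ j * x) := by ring
      linarith
  refine (measure_mono hsub).trans ((measure_biUnion_finset_le _ _).trans
    ((Finset.sum_le_sum hone).trans ?_))
  rw [← ENNReal.ofReal_sum_of_nonneg (fun i _ => by positivity)]
  refine ENNReal.ofReal_le_ofReal ?_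
  rw [← Finset.mul_sum]
  have h3 : ∑ i ∈ (Finset.range J).filter (fun j => (2 : ℝ) ^ j * x ≤ 1 / 2), ((1 : ℝ) / 2) ^ i ≤ 2 :=
    (Finset.sum_le_sum_of_subset_of_nonneg (Finset.filter_subset _ _) (fun _ _ _ => by positivity)).trans
      (half_pow_sum J)
  calc C * T * (W / x) * Real.exp (-(2 * (1 - ε) * x * L)) *
        ∑ i ∈ (Finset.range J).filter (fun j => (2 : ℝ) ^ j * x ≤ 1 / 2), ((1 : ℝ) / 2) ^ i
      ≤ C * T * (W / x) * Real.exp (-(2 * (1 - ε) * x * L)) * 2 :=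
        mul_le_mul_of_nonneg_left h3 (by positivity)
    _ = _ := by ring

theorem sMP (hP0 : S_MP0) (hW : PPW) : S_MP := by
  intro a0 η ε ha0 ha hε hη
  have hε0 : 0 < ε := by linarith
  have hη0 : 0 < η := by linarith
  obtain ⟨C, hC, hsc⟩ := scale_large a0 η ε ha0 ha hε hη0
  obtain ⟨T1, hT1, hP0⟩ := hP0 a0 ha0
  obtain ⟨C3, T2, hC3, hT2, hW⟩ := hW a0 ha0
  -- large `log T`
  have hlim1 : ∀ᶠ L : ℝ in atTop, 12 ≤ Real.log L := Real.tendsto_log_atTop.eventually_ge_atTop 12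
  have hlim2 : ∀ᶠ L : ℝ in atTop, L ^ (1 / 2 : ℝ) * Real.log (L ^ (1 / 2 : ℝ)) ≤ η / 8 * L := by
    have h1 : (fun L : ℝ => Real.log L) =o[atTop] fun L : ℝ => L ^ (1 / 2 : ℝ) :=
      isLittleO_log_rpow_atTop (by norm_num)
    have h2 := h1.bound (show (0 : ℝ) < η / 8 by positivity)
    filter_upwards [h2, eventually_ge_atTop 1] with L hL hL1
    have hl0 : 0 ≤ Real.log L := Real.log_nonneg hL1
    rw [Real.norm_eq_abs, Real.norm_eq_abs, abs_of_nonneg hl0, abs_of_nonneg (by positivity)] at hL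
    rw [Real.log_rpow (by linarith)]
    have h3 : L ^ (1 / 2 : ℝ) * L ^ (1 / 2 : ℝ) = L := by
      rw [← Real.rpow_add (by linarith)]
      norm_num
    calc L ^ (1 / 2 : ℝ) * (1 / 2 * Real.log L) ≤ L ^ (1 / 2 : ℝ) * (η / 8 * L ^ (1 / 2 : ℝ)) := by
          refine mul_le_mul_of_nonneg_left ?_ (by positivity)
          linarith
      _ = η / 8 * (L ^ (1 / 2 : ℝ) * L ^ (1 / 2 : ℝ)) := by ring
      _ = _ := by rw [h3]
  have hlim3 : ∀ᶠ L : ℝ in atTop, C3 ≤ η / 8 * L := by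
    have := (tendsto_id (α := ℝ) (x := atTop)).const_mul_atTop (show (0 : ℝ) < η / 8 by positivity)
    exact this.eventually_ge_atTop C3
  obtain ⟨L0, hL0⟩ := eventually_atTop.mp ((hlim1.and hlim2).and hlim3)
  refine ⟨2 * C, max (max T1 T2) (max 8 (Real.exp L0)), by positivity, hT1.trans
    ((le_max_left _ _).trans (le_max_left _ _)), ?_⟩
  intro T x W hT hx hxW hWT
  have hT1' : T1 ≤ T := ((le_max_left _ _).trans (le_max_left _ _)).trans hT
  have hT2' : T2 ≤ T := ((le_max_right _ _).trans (le_max_left _ _)).trans hT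
  have hT8 : 8 ≤ T := ((le_max_left _ _).trans (le_max_right _ _)).trans hT
  have hTe : Real.exp L0 ≤ T := ((le_max_right _ _).trans (le_max_right _ _)).trans hT
  have hT0 : 0 < T := by linarith
  have hLL0 : L0 ≤ Real.log T := (Real.le_log_iff_exp_le hT0).mpr hTe
  have hL : 0 < Real.log T := Real.log_pos (by linarith)
  obtain ⟨⟨hl1, hl2⟩, hl3⟩ := hL0 (Real.log T) hLL0
  set L := Real.log T with hLdef
  set q : ℝ := 1 - ε / 32 with hq
  have hq0 : 0 < q := by rw [hq]; linarith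
  have hq1 : q < 1 := by rw [hq]; linarith
  -- the number of blocks
  have hex : ∃ I : ℕ, a0 * q ^ (4 * I) * L < 1 / 2 * Real.log L := by
    obtain ⟨n, hn⟩ := exists_pow_lt_of_lt_one (show 0 < 1 / 2 * Real.log L / (a0 * L) by positivity) hq1
    refine ⟨n, ?_⟩
    have h1 : q ^ (4 * n) ≤ q ^ n := pow_le_pow_of_le_one hq0.le hq1.le (by omega)
    have h2 : q ^ (4 * n) < 1 / 2 * Real.log L / (a0 * L) := lt_of_le_of_lt h1 hn
    rw [lt_div_iff₀ (by positivity)] at h2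
    linarith
  classical
  set I := Nat.find hex with hI
  have hI1 : a0 * q ^ (4 * I) * L < 1 / 2 * Real.log L := Nat.find_spec hex
  have hI2 : ∀ i < I, 6 ≤ a0 * q ^ (4 * i) * L := by
    intro i hi
    have := Nat.find_min hex hi
    push Not at this
    linarith
  have hall := all_scales ε hε0 hε C hC T x W hT8 hx hxW hWT
    (fun z => ‖SS (T ^ (a0 * q ^ (4 * I))) (T ^ a0) (1 / 2 + z)‖) (η / 2 * L)
    (fun x' W' hx' hxW' hWT' => hsc T x' W' I hT8 hI2 hx' hxW' hWT')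
  refine (measure_mono ?_).trans hall
  rintro t ⟨ht1, ht2, z, hz1, hz2, hz3⟩
  have hx0 : 0 < x := lt_of_lt_of_le (by positivity) hx
  have hzre : 0 < z.re := lt_of_lt_of_le hx0 hz1
  have hz12 : z.re < 1 / 2 := by
    by_contra hcon
    have h1 := hP0 T z hT1' (not_lt.mp hcon)
    have h2 : 16 * a0 * L ≤ η * L := mul_le_mul_of_nonneg_right hη hL.le
    linarith
  refine ⟨ht1, ht2, z, hz1, hz12, hz2, ?_⟩
  -- the primes up to `T ^ a0`
  set Y : ℝ := T ^ (a0 * q ^ (4 * I)) with hY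
  have hY1 : 1 ≤ Y := Real.one_le_rpow (by linarith) (by positivity)
  have hYL : Y ≤ L ^ (1 / 2 : ℝ) := by
    rw [hY, Real.rpow_def_of_pos hT0, Real.rpow_def_of_pos hL]
    refine Real.exp_le_exp.mpr ?_
    have : Real.log T * (a0 * q ^ (4 * I)) = a0 * q ^ (4 * I) * L := by rw [hLdef]; ring
    rw [this]
    linarith
  have hadd : SS 0 (T ^ a0) (1 / 2 + z) = SS 0 Y (1 / 2 + z) + SS Y (T ^ a0) (1 / 2 + z) := by
    refine SS_add 0 Y (T ^ a0) le_rfl (by linarith) ?_ _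
    refine Real.rpow_le_rpow_of_exponent_le (by linarith) ?_
    exact mul_le_of_le_one_right ha0.le (pow_le_one₀ hq0.le hq1.le)
  have hsm : ‖SS 0 Y (1 / 2 + z)‖ ≤ η / 8 * L := by
    have hre : 0 ≤ (1 / 2 + z).re := by
      rw [Complex.add_re]
      have : (1 / 2 : ℂ).re = 1 / 2 := by norm_num
      rw [this]
      linarith
    refine (SS_small Y _ hY1 hre).trans (le_trans ?_ hl2)
    refine mul_le_mul hYL (Real.log_le_log (by linarith) hYL) (Real.log_nonneg hY1) (by positivity)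
  have hw := hW T z hT2' hzre
  have h4a : 4 * a0 * L ≤ η / 4 * L := mul_le_mul_of_nonneg_right (by linarith) hL.le
  have htri : ‖logDeriv (PP (T ^ a0)) (1 / 2 + z)‖ ≤
      ‖logDeriv (PP (T ^ a0)) (1 / 2 + z) + SS 0 (T ^ a0) (1 / 2 + z)‖ + ‖SS 0 (T ^ a0) (1 / 2 + z)‖ := by
    have e : logDeriv (PP (T ^ a0)) (1 / 2 + z) = (logDeriv (PP (T ^ a0)) (1 / 2 + z) +
      SS 0 (T ^ a0) (1 / 2 + z)) - SS 0 (T ^ a0) (1 / 2 + z) := by ring
    calc ‖logDeriv (PP (T ^ a0)) (1 / 2 + z)‖ = ‖(logDeriv (PP (T ^ a0)) (1 / 2 + z) +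
      SS 0 (T ^ a0) (1 / 2 + z)) - SS 0 (T ^ a0) (1 / 2 + z)‖ := by rw [← e]
      _ ≤ _ := norm_sub_le _ _
  have htri2 : ‖SS 0 (T ^ a0) (1 / 2 + z)‖ ≤ ‖SS 0 Y (1 / 2 + z)‖ + ‖SS Y (T ^ a0) (1 / 2 + z)‖ := by
    rw [hadd]
    exact norm_add_le _ _
  linarith

end Pool.Agent.Zk2.DH
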