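import Pool.Agent.Zk1.DH.Spec

set_option autoImplicit false

/-!
# Phragmen-Lindelof in an exponential cone
-/

namespace Pool.Agent.Zk2.DH

open Complex Filter Topology MeasureTheory Set
open Pool.Agent.Zk1.DH

/-- the cone with vertex line `x0` -/
def reg (x0 y0 Λ e L : ℝ) : Set ℂ :=
  {z : ℂ | x0 < z.re ∧ z.re < Λ ∧ |z.im - y0| < x0 * Real.exp (e * (z.re - x0) * L)}

def cl (x0 y0 Λ e L : ℝ) : Set ℂ :=
  {z : ℂ | x0 ≤ z.re ∧ z.re ≤ Λ ∧ |z.im - y0| ≤ x0 * Real.exp (e * (z.re - x0) * L)}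

lemma cl_closed (x0 y0 Λ e L : ℝ) : IsClosed (cl x0 y0 Λ e L) := by
  have h1 : IsClosed {z : ℂ | x0 ≤ z.re} := isClosed_le continuous_const Complex.continuous_re
  have h2 : IsClosed {z : ℂ | z.re ≤ Λ} := isClosed_le Complex.continuous_re continuous_const
  have h3 : IsClosed {z : ℂ | |z.im - y0| ≤ x0 * Real.exp (e * (z.re - x0) * L)} := by
    refine isClosed_le ?_ ?_
    · exact (Complex.continuous_im.sub continuous_const).abs
    · exact continuous_const.mul (Real.continuous_exp.comp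
        ((continuous_const.mul (Complex.continuous_re.sub continuous_const)).mul continuous_const))
  have : cl x0 y0 Λ e L = {z : ℂ | x0 ≤ z.re} ∩ ({z : ℂ | z.re ≤ Λ} ∩
      {z : ℂ | |z.im - y0| ≤ x0 * Real.exp (e * (z.re - x0) * L)}) := rfl
  rw [this]
  exact h1.inter (h2.inter h3)

lemma reg_open (x0 y0 Λ e L : ℝ) : IsOpen (reg x0 y0 Λ e L) := by
  have h1 : IsOpen {z : ℂ | x0 < z.re} := isOpen_lt continuous_const Complex.continuous_re
  have h2 : IsOpen {z : ℂ | z.re < Λ} := isOpen_lt Complex.continuous_re continuous_const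
  have h3 : IsOpen {z : ℂ | |z.im - y0| < x0 * Real.exp (e * (z.re - x0) * L)} := by
    refine isOpen_lt ?_ ?_
    · exact (Complex.continuous_im.sub continuous_const).abs
    · exact continuous_const.mul (Real.continuous_exp.comp
        ((continuous_const.mul (Complex.continuous_re.sub continuous_const)).mul continuous_const))
  have : reg x0 y0 Λ e L = {z : ℂ | x0 < z.re} ∩ ({z : ℂ | z.re < Λ} ∩
      {z : ℂ | |z.im - y0| < x0 * Real.exp (e * (z.re - x0) * L)}) := rfl
  rw [this]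
  exact h1.inter (h2.inter h3)

lemma reg_sub_cl (x0 y0 Λ e L : ℝ) : reg x0 y0 Λ e L ⊆ cl x0 y0 Λ e L :=
  fun _ hz => ⟨hz.1.le, hz.2.1.le, hz.2.2.le⟩

lemma closure_sub (x0 y0 Λ e L : ℝ) : closure (reg x0 y0 Λ e L) ⊆ cl x0 y0 Λ e L :=
  closure_minimal (reg_sub_cl x0 y0 Λ e L) (cl_closed x0 y0 Λ e L)

lemma reg_bounded {x0 y0 Λ e L : ℝ} (hx0 : 0 < x0) (he : 0 < e) (hL : 0 < L) :
    Bornology.IsBounded (reg x0 y0 Λ e L) := by
  rw [isBounded_iff_forall_norm_le]
  refine ⟨(|x0| + |Λ|) + (|y0| + x0 * Real.exp (e * (|x0| + |Λ| + |x0|) * L)), fun z hz => ?_⟩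
  obtain ⟨h1, h2, h3⟩ := hz
  have hre : |z.re| ≤ |x0| + |Λ| := by
    rw [abs_le]
    have a1 := neg_abs_le x0
    have a2 := le_abs_self Λ
    have a3 := abs_nonneg x0
    have a4 := abs_nonneg Λ
    constructor <;> linarith
  have him : |z.im| ≤ |y0| + x0 * Real.exp (e * (|x0| + |Λ| + |x0|) * L) := by
    have h4 : |z.im| ≤ |y0| + |z.im - y0| := by
      have := abs_add_le y0 (z.im - y0)
      have e1 : y0 + (z.im - y0) = z.im := by ring
      rwa [e1] at this
    have h5 : Real.exp (e * (z.re - x0) * L) ≤ Real.exp (e * (|x0| + |Λ| + |x0|) * L) := by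
      apply Real.exp_le_exp.mpr
      have h6 : z.re - x0 ≤ |x0| + |Λ| + |x0| := by
        have a1 := neg_abs_le x0
        have a2 := le_abs_self z.re
        linarith
      exact mul_le_mul_of_nonneg_right (mul_le_mul_of_nonneg_left h6 he.le) hL.le
    have h7 := mul_le_mul_of_nonneg_left h5 hx0.le
    linarith
  calc ‖z‖ ≤ |z.re| + |z.im| := Complex.norm_le_abs_re_add_abs_im z
    _ ≤ _ := by linarith

theorem sPL : S_PL := by
  intro e c δ L x0 y0 Λ M q h he hc hδ hL hx0 hxΛ hM hq H1 H2 x hx hxL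
  -- the vertex and the far line
  rcases eq_or_lt_of_le hx with hxe | hx1
  · subst hxe
    have h1 := (H1 (x0 + y0 * I) (by simp) (by simpa using hxΛ) (by simp; positivity)).2
    have e1 : ((x0 : ℂ) + y0 * I).re = x0 := by simp
    rw [e1, sub_self, mul_zero, zero_mul, Real.exp_zero, mul_one] at h1
    rw [div_self hx0.ne', one_pow, sub_self, mul_zero, zero_mul, neg_zero, Real.exp_zero]
    linarith
  rcases eq_or_lt_of_le hxL with hxe | hx2
  · subst hxe
    have h1 := H2 (x + y0 * I) (by simp)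
    have h2 : (1 : ℝ) ≤ (x / x0) ^ q := one_le_pow₀ ((one_le_div hx0).mpr hx)
    calc ‖h (x + y0 * I)‖ ≤ M * Real.exp (-(c * (x - x0) * L)) := h1
      _ = M * 1 * Real.exp (-(c * (x - x0) * L)) := by ring
      _ ≤ M * (x / x0) ^ q * Real.exp (-(c * (x - x0) * L)) := by gcongr
  -- the auxiliary function
  set w : ℂ → ℂ := fun z => 1 + (z - x0 - I * y0) / x0 with hw
  set g : ℂ → ℂ := fun z => h z * Complex.exp (c * L * (z - x0)) * ((w z) ^ q)⁻¹ with hg
  have hx0c : (x0 : ℂ) ≠ 0 := by exact_mod_cast hx0.ne'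
  have hwre : ∀ z : ℂ, (w z).re = 1 + (z.re - x0) / x0 := by
    intro z
    simp only [hw]
    rw [Complex.add_re, Complex.div_ofReal_re]
    simp
  have hwim : ∀ z : ℂ, (w z).im = (z.im - y0) / x0 := by
    intro z
    simp only [hw]
    rw [Complex.add_im, Complex.div_ofReal_im]
    simp
  have hw1 : ∀ z : ℂ, x0 ≤ z.re → 1 ≤ ‖w z‖ := by
    intro z hz
    have h1 : 1 ≤ (w z).re := by
      rw [hwre]
      have : 0 ≤ (z.re - x0) / x0 := div_nonneg (by linarith) hx0.le
      linarith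
    exact h1.trans ((le_abs_self _).trans (Complex.abs_re_le_norm _))
  have hw2 : ∀ z : ℂ, x0 ≤ z.re → w z ≠ 0 := by
    intro z hz h0
    have := hw1 z hz
    rw [h0, norm_zero] at this
    linarith
  have hwd : Differentiable ℂ w := by
    simp only [hw]
    intro z
    fun_prop
  have hgn : ∀ z : ℂ, ‖g z‖ = ‖h z‖ * Real.exp (c * (z.re - x0) * L) * (‖w z‖ ^ q)⁻¹ := by
    intro z
    simp only [hg]
    rw [norm_mul, norm_mul, norm_inv, norm_pow, Complex.norm_exp]
    congr 3
    have : ((c : ℂ) * L * (z - x0)) = ((c * L : ℝ) : ℂ) * (z - x0) := by push_cast; ring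
    rw [this, Complex.re_ofReal_mul]
    simp
    ring
  have hgd : ∀ z : ℂ, z ∈ cl x0 y0 Λ e L → DifferentiableAt ℂ g z := by
    intro z hz
    have h1 := (H1 z hz.1 hz.2.1 hz.2.2).1
    simp only [hg]
    refine (h1.mul ?_).mul ?_
    · fun_prop
    · exact ((hwd z).pow q).inv (pow_ne_zero _ (hw2 z hz.1))
  have hU : DiffContOnCl ℂ g (reg x0 y0 Λ e L) := by
    constructor
    · intro z hz
      exact (hgd z (reg_sub_cl _ _ _ _ _ hz)).differentiableWithinAt
    · intro z hz
      exact (hgd z (closure_sub _ _ _ _ _ hz)).continuousAt.continuousWithinAt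
  have hfr : ∀ z ∈ frontier (reg x0 y0 Λ e L), ‖g z‖ ≤ M := by
    intro z hz
    have hz1 : z ∈ cl x0 y0 Λ e L := closure_sub _ _ _ _ _ (frontier_subset_closure hz)
    have hz2 : z ∉ reg x0 y0 Λ e L := by
      intro hz3
      have := hz.2
      rw [(reg_open x0 y0 Λ e L).interior_eq] at this
      exact this hz3
    obtain ⟨a1, a2, a3⟩ := hz1
    have hb := (H1 z a1 a2 a3).2
    have hw1z := hw1 z a1
    have hwq : (‖w z‖ ^ q)⁻¹ ≤ 1 := inv_le_one_of_one_le₀ (one_le_pow₀ hw1z)
    have hwq0 : 0 ≤ (‖w z‖ ^ q)⁻¹ := by positivity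
    rw [hgn]
    by_cases c1 : z.re = x0
    · rw [c1, sub_self, mul_zero, zero_mul, Real.exp_zero, mul_one] at hb
      rw [c1, sub_self, mul_zero, zero_mul, Real.exp_zero, mul_one]
      calc ‖h z‖ * (‖w z‖ ^ q)⁻¹ ≤ M * 1 := mul_le_mul hb hwq hwq0 hM
        _ = M := mul_one _
    by_cases c2 : z.re = Λ
    · have hb2 := H2 z c2
      rw [c2]
      calc ‖h z‖ * Real.exp (c * (Λ - x0) * L) * (‖w z‖ ^ q)⁻¹
          ≤ (M * Real.exp (-(c * (Λ - x0) * L))) * Real.exp (c * (Λ - x0) * L) * 1 := by gcongr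
        _ = M * (Real.exp (-(c * (Λ - x0) * L)) * Real.exp (c * (Λ - x0) * L)) := by ring
        _ = M := by rw [← Real.exp_add]; simp
    · have a4 : x0 < z.re := lt_of_le_of_ne a1 (Ne.symm c1)
      have a5 : z.re < Λ := lt_of_le_of_ne a2 c2
      have a6 : |z.im - y0| = x0 * Real.exp (e * (z.re - x0) * L) := by
        by_contra hne
        exact hz2 ⟨a4, a5, lt_of_le_of_ne a3 hne⟩
      have hwim2 : Real.exp (e * (z.re - x0) * L) ≤ ‖w z‖ := by
        have h1 : |(w z).im| = Real.exp (e * (z.re - x0) * L) := by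
          rw [hwim, abs_div, abs_of_pos hx0, a6]
          field_simp
        rw [← h1]
        exact Complex.abs_im_le_norm _
      have hpow : Real.exp (e * (z.re - x0) * L) ^ q ≤ ‖w z‖ ^ q :=
        pow_le_pow_left₀ (Real.exp_pos _).le hwim2 q
      have hinv : (‖w z‖ ^ q)⁻¹ ≤ (Real.exp (e * (z.re - x0) * L) ^ q)⁻¹ :=
        inv_anti₀ (by positivity) hpow
      have hex : (Real.exp (e * (z.re - x0) * L) ^ q)⁻¹ = Real.exp (-(q * (e * (z.re - x0) * L))) := by
        rw [← Real.exp_nat_mul, ← Real.exp_neg]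
      rw [hex] at hinv
      have hpos : 0 ≤ (z.re - x0) * L := mul_nonneg (by linarith) hL.le
      calc ‖h z‖ * Real.exp (c * (z.re - x0) * L) * (‖w z‖ ^ q)⁻¹
          ≤ (M * Real.exp (δ * (z.re - x0) * L)) * Real.exp (c * (z.re - x0) * L) *
            Real.exp (-(q * (e * (z.re - x0) * L))) := by gcongr
        _ = M * Real.exp ((c + δ - q * e) * ((z.re - x0) * L)) := by
            rw [mul_assoc, mul_assoc, ← Real.exp_add, ← Real.exp_add]
            congr 2
            ring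
        _ ≤ M * 1 := by
            refine mul_le_mul_of_nonneg_left ?_ hM
            rw [Real.exp_le_one_iff]
            exact mul_nonpos_of_nonpos_of_nonneg (by linarith) hpos
        _ = M := mul_one _
  have hmem : ((x : ℂ) + y0 * I) ∈ reg x0 y0 Λ e L := by
    refine ⟨by simpa using hx1, by simpa using hx2, ?_⟩
    simp
    positivity
  have hfin := Complex.norm_le_of_forall_mem_frontier_norm_le (reg_bounded hx0 he hL) hU hfr
    (subset_closure hmem)
  rw [hgn] at hfin
  have hre : ((x : ℂ) + y0 * I).re = x := by simp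
  have hww : ‖w (x + y0 * I)‖ = x / x0 := by
    have h1 : w (x + y0 * I) = ((x / x0 : ℝ) : ℂ) := by
      simp only [hw]
      push_cast
      field_simp
      ring
    rw [h1, Complex.norm_real, Real.norm_of_nonneg (div_nonneg (hx0.le.trans hx) hx0.le)]
  rw [hre, hww] at hfin
  have hp : 0 < (x / x0) ^ q := by have : 0 < x := hx0.trans hx1; positivity
  have h1 : ‖h (x + y0 * I)‖ * Real.exp (c * (x - x0) * L) ≤ M * (x / x0) ^ q := by
    have h2 := mul_le_mul_of_nonneg_right hfin hp.le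
    rwa [mul_assoc (‖h (x + y0 * I)‖ * Real.exp (c * (x - x0) * L)), inv_mul_cancel₀ hp.ne', mul_one] at h2
  calc ‖h (x + y0 * I)‖ = ‖h (x + y0 * I)‖ * Real.exp (c * (x - x0) * L) *
      Real.exp (-(c * (x - x0) * L)) := by rw [mul_assoc, ← Real.exp_add]; simp
    _ ≤ M * (x / x0) ^ q * Real.exp (-(c * (x - x0) * L)) := by gcongr

end Pool.Agent.Zk2.DH
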